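import Pool.Agent.MP_c9a892_co.H41.Spec

/-!
Small moves of the first player and moves of the second player keep the invariant.
-/

set_option autoImplicit false

namespace Pool.Agent.MP_c9a892_co.H41

open Finset
open scoped Classical

namespace BestA

variable {V I : Type} [Fintype V] [DecidableEq V] [Fintype I] [DecidableEq I]
  {p : Par V I} {s : St V I}

theorem baseA (h : Base p s) (x : V) : Base p { s with A := insert x s.A } :=
  ⟨h.sub.trans (subset_insert _ _), h.nonneg, h.mass, h.mz, h.cz, h.csub, h.notarr,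
    fun i hi hd z hz hA hB => h.reg i hi hd z hz (fun k => hA (mem_insert_of_mem k)) hB, h.cert⟩

theorem baseB (h : Base p s) (y : V) : Base p { s with B := insert y s.B } :=
  ⟨h.sub, h.nonneg, h.mass, h.mz, h.cz, h.csub,
    fun i hi hd => h.notarr i hi (hd.mono_left (subset_insert _ _)),
    fun i hi hd z hz hA hB => h.reg i hi hd z hz hA fun k => hB (mem_insert_of_mem k), h.cert⟩

theorem killA (x : V) (t : T1 V I ⊕ T3 p) :
    kill p { s with A := insert x s.A } t = kill p s t := by cases t <;> rfl

theorem wtA (x : V) (t : T1 V I ⊕ T3 p) :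
    wt p { s with A := insert x s.A } t = wt p s t := by cases t <;> rfl

theorem WA (x z : V) : W p { s with A := insert x s.A } z = W p s z := by
  simp only [W, killA, wtA]

theorem PhiA (x : V) : Phi p { s with A := insert x s.A } ≤ Phi p s := by
  simp only [Phi, wtA]
  refine add_le_add le_rfl (sum_le_sum_of_subset_of_nonneg ?_ fun z _ _ => L_nonneg p s z)
  exact compl_subset_compl.2 (union_subset_union_left (subset_insert _ _))

theorem killB (y : V) (t : T1 V I ⊕ T3 p) :
    kill p { s with B := insert y s.B } t = kill p s t := by cases t <;> rfl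

theorem rawB (y : V) (t : T1 V I ⊕ T3 p) :
    raw p { s with B := insert y s.B } t = raw p s t := by cases t <;> rfl

theorem wtB (y : V) (t : T1 V I ⊕ T3 p) :
    wt p { s with B := insert y s.B } t = if y ∈ kill p s t then 0 else wt p s t := by
  simp only [wt, killB, rawB, disjoint_insert_left]
  by_cases h : y ∈ kill p s t <;> simp [h]

theorem WB (hp : Ok p) (h : Base p s) (y x : V) :
    W p { s with B := insert y s.B } x ≤ W p s x := by
  simp only [W, killB, wtB]
  refine sum_le_sum fun t _ => ?_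
  have := wt_nonneg hp h t
  split_ifs <;> first | exact le_rfl | exact this

theorem PhiB {y : V} (hA : y ∉ s.A) (hB : y ∉ s.B) :
    Phi p { s with B := insert y s.B } = Phi p s - (W p s y + L p s y) := by
  have h1 : ∑ t, wt p { s with B := insert y s.B } t + W p s y = ∑ t, wt p s t := by
    rw [W, ← sum_add_distrib]
    refine sum_congr rfl fun t _ => ?_
    rw [wtB]
    split_ifs <;> simp
  have h2 : ∑ z ∈ (s.A ∪ insert y s.B)ᶜ, L p s z + L p s y = ∑ z ∈ (s.A ∪ s.B)ᶜ, L p s z := by
    rw [union_insert, compl_insert]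
    exact sum_erase_add _ _ (by simp [hA, hB])
  change ∑ t, wt p { s with B := insert y s.B } t + ∑ z ∈ (s.A ∪ insert y s.B)ᶜ, L p s z = _
  rw [Phi]
  linarith

end BestA

theorem rowBest : BestS := by
  intro V I _ _ _ _ p s hp
  have l1 := sub_nonneg.2 hp.one
  have l2 := sub_nonneg.2 hp.two
  refine ⟨fun x h _ _ => ?_, fun y h hA hB => ?_, fun h hy => ?_⟩
  · have h1 := BestA.PhiA (p := p) (s := s) x
    refine ⟨⟨BestA.baseA h.1.1 x, h1.trans h.1.2⟩, fun u z k1 k2 k3 k4 => ?_⟩
    have h2 := h.2 u z (fun k => k1 (mem_insert_of_mem k)) k2 (fun k => k3 (mem_insert_of_mem k)) k4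
    rw [BestA.WA]
    change _ + _ + _ * L p s z ≤ _
    linarith
  · have h1 := BestA.PhiB (p := p) hA hB
    have h3 := add_nonneg (W_nonneg hp h.1.1 y) (L_nonneg p s y)
    refine ⟨⟨BestA.baseB h.1.1 y, by linarith [h.1.2]⟩, fun u z k1 k2 k3 k4 => ?_⟩
    have h2 := h.2 u z k1 (fun k => k2 (mem_insert_of_mem k)) k3 fun k => k4 (mem_insert_of_mem k)
    have h4 := mul_le_mul_of_nonneg_left (BestA.WB hp h.1.1 y u) l1
    change _ + _ + _ * L p s z ≤ _
    linarith
  · obtain ⟨y0, h1, h2⟩ := hy
    obtain ⟨y, hy, hm⟩ := exists_max_image (s.A ∪ s.B)ᶜ (fun y => W p s y + L p s y)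
      ⟨y0, by simp [h1, h2]⟩
    simp only [mem_compl, mem_union, not_or, and_imp] at hy hm
    have h3 := BestA.PhiB (p := p) hy.1 hy.2
    have h4 := add_nonneg (W_nonneg hp h.1 y) (L_nonneg p s y)
    refine ⟨y, hy.1, hy.2, ⟨BestA.baseB h.1 y, by linarith [h.2]⟩, fun u z k1 k2 k3 k4 => ?_⟩
    have h5 : W p { s with B := insert y s.B } u ≤ W p s y + L p s y := by
      linarith [BestA.WB hp h.1 y u, hm u k1 fun k => k2 (mem_insert_of_mem k), L_nonneg p s u]
    have h6 : L p s z ≤ W p s y + L p s y := by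
      linarith [hm z k3 fun k => k4 (mem_insert_of_mem k), W_nonneg hp h.1 z]
    have h7 := mul_le_mul_of_nonneg_left h5 l1
    have h8 := mul_le_mul_of_nonneg_left h6 l2
    change _ + _ + _ * L p s z ≤ _
    linarith [h.2]

end Pool.Agent.MP_c9a892_co.H41
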