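import Pool.Agent.MP_c9a892_co.H41.Spec

/-! A big move of the first player keeps the invariant. -/

set_option autoImplicit false

namespace Pool.Agent.MP_c9a892_co.H41

open Finset
open scoped Classical

namespace BigA

variable {V I : Type} [Fintype V] [DecidableEq V] [Fintype I] [DecidableEq I]

omit [Fintype V] [Fintype I] in
theorem mem_new {p : Par V I} {s : St V I} {x : V} {i : I} :
    i ∈ new p s x ↔ i ∈ p.low x ∧ i ∉ s.arr ∧ Disjoint s.B (p.l i) := mem_filter

theorem base_mk {p : Par V I} {s : St V I} {x : V} (hp : Ok p) (hs : Base p s) (hA : x ∉ s.A)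
    (hL : ∀ z, z ∉ insert x s.A → z ∉ s.B → L p (mk p s x) z ≤ 6) : Base p (mk p s x) := by
  have hl : 0 < p.lam := zero_lt_one.trans_le hp.one
  have hB : x ∉ s.Big := fun h => hA (hs.sub h)
  have hm : ∀ z i, (mk p s x).m z i = if i ∈ new p s x ∧ z ∈ p.l i ∧ z ∉ insert x s.A ∧ z ∉ s.B
      then p.lam ^ ((s.Big ∩ p.l i).card + 1) else s.m z i := fun _ _ => rfl
  have hc : ∀ i, (mk p s x).cnt i = if i ∈ s.arr ∧ i ∉ s.done ∧ x ∈ p.l i
      then insert x (s.cnt i) else s.cnt i := fun _ => rfl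
  have harr : ∀ i, i ∈ (mk p s x).arr ↔ i ∈ s.arr ∨ i ∈ new p s x := fun _ => mem_union
  have hcard : ∀ i, x ∈ p.l i → (insert x s.Big ∩ p.l i).card = (s.Big ∩ p.l i).card + 1 := by
    intro i hi
    rw [insert_inter_of_mem hi, card_insert_of_notMem fun h => hB (mem_inter.1 h).1]
  refine ⟨insert_subset_insert x hs.sub, fun z i => ?_, fun z => ?_, fun i hi z => ?_,
    fun i hi => ?_, fun i => ?_, fun i hi hd y hy => ?_, fun i hi hd z hz hzA hzB => ?_,
    fun c hcC => ?_⟩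
  · rw [hm]
    split_ifs
    · positivity
    · exact hs.nonneg z i
  · by_cases h : z ∉ insert x s.A ∧ z ∉ s.B
    · have h1 := hL z h.1 h.2
      have : Nonempty V := ⟨z⟩
      have hN : (0 : ℝ) < Fintype.card V := by exact_mod_cast Fintype.card_pos
      rw [L, inv_mul_le_iff₀ hN, mul_comm _ (6 : ℝ)] at h1
      have h2 := ((Real.le_log_iff_exp_le (by positivity)).2 h1).trans hp.θT
      exact le_of_mul_le_mul_left h2 hp.θpos
    · refine le_trans (le_of_eq ?_) (hs.mass z)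
      exact sum_congr rfl fun i _ => by rw [hm, if_neg fun h' => h h'.2.2]
  · rw [harr, not_or] at hi
    rw [hm, if_neg fun h => hi.2 h.1, hs.mz i hi.1]
  · rw [harr, not_or] at hi
    rw [hc, if_neg fun h => hi.1 h.1, hs.cz i hi.1]
  · have h1 : s.cnt i ⊆ insert x s.Big ∩ p.l i :=
      (hs.csub i).trans (inter_subset_inter_right (subset_insert _ _))
    rw [hc]
    split_ifs with h
    · exact insert_subset (mem_inter.2 ⟨mem_insert_self _ _, h.2.2⟩) h1
    · exact h1
  · rw [harr, not_or] at hi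
    obtain ⟨h1, h2⟩ := mem_inter.1 hy
    rcases mem_insert.1 h1 with rfl | h1
    · exact fun h => hi.2 (mem_new.2 ⟨h, hi.1, hd⟩)
    · exact hs.notarr i hi.1 hd y (mem_inter.2 ⟨h1, h2⟩)
  · change _ = p.lam ^ (insert x s.Big ∩ p.l i).card
    by_cases hn : i ∈ new p s x
    · have h1 := mem_new.1 hn
      rw [hm, if_pos ⟨hn, hz, hzA, hzB⟩, hc, if_neg fun h => h1.2.1 h.1, hs.cz i h1.2.1,
        hcard i (hp.lowmem x i h1.1), card_empty, pow_zero, mul_one]
    · have h1 : i ∈ s.arr := ((harr i).1 hi).resolve_right hn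
      have h2 := hs.reg i h1 hd z hz (fun h => hzA (mem_insert_of_mem h)) hzB
      rw [hm, if_neg fun h => hn h.1, hc]
      by_cases hx : x ∈ p.l i
      · rw [if_pos ⟨h1, hd, hx⟩, hcard i hx,
          card_insert_of_notMem fun h => hB (mem_inter.1 (hs.csub i h)).1, pow_succ, pow_succ,
          ← mul_assoc, h2]
      · rw [if_neg fun h => hx h.2.2, insert_inter_of_notMem hx, h2]
  · have h1 := hs.cert c hcC
    have h2 : c.2 ∈ s.arr := by
      by_contra h
      rw [hs.mz _ h, zero_mul] at h1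
      exact absurd h1 (not_le.2 (pow_pos hl _))
    rw [hm, if_neg fun h => (mem_new.1 h.1).2.1 h2, hc,
      if_neg fun h => h.2.1 (mem_image_of_mem _ hcC)]
    exact h1

end BigA

theorem rowBig : OfBig := by
  intro h1 h2 h3 V I _ _ _ _ p s x hp hg hA hB
  obtain ⟨⟨hs, h6⟩, hg⟩ := hg
  obtain ⟨z0, hz0, hmax⟩ := exists_max_image (s.A ∪ s.B)ᶜ (L p s) ⟨x, by simp [hA, hB]⟩
  simp only [mem_compl, mem_union, not_or] at hz0 hmax
  obtain ⟨⟨a0, a1⟩, a2⟩ := h1 V I p s x hp hs hA hB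
  have b1 := h2 V I p s x (L p s z0) hp hs hA hB (a2 h6) fun z hz hz' => hmax z ⟨hz, hz'⟩
  obtain ⟨c0, c1⟩ := h3 V I p s x hp hs hA hB
  have g := hg x z0 hA hB hz0.1 hz0.2
  have e : Phi p (mk p s x) = ∑ t, wt p (mk p s x) (.inl t) + ∑ t, wt p (mk p s x) (.inr t) +
      ∑ z ∈ (insert x s.A ∪ s.B)ᶜ, L p (mk p s x) z := by
    rw [Phi, Fintype.sum_sum_type]; rfl
  rw [Phi, W, Fintype.sum_sum_type, Fintype.sum_sum_type] at g
  have hPhi : Phi p (mk p s x) ≤ 6 := by rw [e]; linarith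
  refine ⟨BigA.base_mk hp hs hA fun z hz hz' => ?_, hPhi⟩
  have : L p (mk p s x) z ≤ ∑ z ∈ (insert x s.A ∪ s.B)ᶜ, L p (mk p s x) z :=
    single_le_sum (fun z _ => L_nonneg p _ z) (by rw [mem_compl, mem_union, not_or]; exact ⟨hz, hz'⟩)
  linarith

end Pool.Agent.MP_c9a892_co.H41
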