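import Pool.Agent.MP_c9a892_co.H41.Spec

/-! The first potential under a big move, and the bound for the mass that arrives. -/

set_option autoImplicit false

namespace Pool.Agent.MP_c9a892_co.H41

open Finset
open scoped Classical

namespace Big1A

variable {V I : Type} [Fintype V] [DecidableEq V] [Fintype I] [DecidableEq I]

theorem term (p : Par V I) (s : St V I) {x : V} (hx : x ∉ s.Big) (t : T1 V I) :
    wt p (mk p s x) (.inl t) = wt p s (.inl t) +
      (p.lam - 1) * if x ∈ kill p s (.inl t) then wt p s (.inl t) else 0 := by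
  simp only [wt, kill, raw, mk]
  by_cases h : x ∈ t.2.biUnion p.l
  · rw [if_pos h, insert_inter_of_mem h,
      card_insert_of_notMem fun h' => hx (mem_inter.1 h').1, pow_succ]
    split_ifs <;> ring
  · rw [if_neg h, insert_inter_of_notMem h, mul_zero, add_zero]

theorem exp_half {u : ℝ} (h0 : 0 ≤ u) (h1 : u ≤ 1) : Real.exp (u / 2) ≤ 1 + u := by
  refine (Real.exp_bound_div_one_sub_of_interval (by linarith) (by linarith)).trans ?_
  rw [div_le_iff₀ (by linarith)]
  nlinarith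

theorem wt_sub {p : Par V I} {s : St V I} (hp : Ok p) {x : V} (hx : x ∉ s.Big) {S : Finset I}
    (hS : S ⊆ new p s x) :
    wt p s (.inl (x, S)) = (Fintype.card V * Real.exp ((p.lam ^ p.h)⁻¹ * p.D))⁻¹ *
      ∏ i ∈ S, (p.lam ^ p.h)⁻¹ * p.lam ^ (s.Big ∩ p.l i).card := by
  have h1 : S ⊆ p.low x := hS.trans (filter_subset _ _)
  have h2 : Disjoint s.B (S.biUnion p.l) :=
    (disjoint_biUnion_right _ _ _).2 fun i hi => (mem_filter.1 (hS hi)).2.2
  have h3 : (s.Big ∩ S.biUnion p.l).card = ∑ i ∈ S, (s.Big ∩ p.l i).card := by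
    rw [inter_biUnion, card_biUnion]
    intro i hi j hj hij
    refine disjoint_left.2 fun y hy hy' => hij ?_
    exact hp.lin.lin i j x y (fun e => hx (e ▸ (mem_inter.1 hy).1)) (hp.lowmem x i (h1 hi))
      (mem_inter.1 hy).2 (hp.lowmem x j (h1 hj)) (mem_inter.1 hy').2
  simp only [wt, kill, raw]
  rw [if_pos h2, if_pos h1, h3, prod_mul_distrib, prod_const, prod_pow_eq_pow_sum, mul_assoc]

theorem sum_le {p : Par V I} {s : St V I} (hp : Ok p) (hs : Base p s) (x : V) :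
    ∑ S ∈ (new p s x).powerset, wt p s (.inl (x, S)) ≤ Phi p s := by
  have h1 : ∑ S ∈ (new p s x).powerset, wt p s (.inl (x, S)) =
      ∑ t ∈ (new p s x).powerset.image (fun S => (Sum.inl (x, S) : T1 V I ⊕ T3 p)), wt p s t :=
    (sum_image fun a _ b _ h => (Prod.mk.inj (Sum.inl.inj h)).2).symm
  rw [h1]
  exact (sum_le_sum_of_subset_of_nonneg (subset_univ _) fun t _ _ => wt_nonneg hp hs t).trans
    (le_add_of_nonneg_right (sum_nonneg fun z _ => L_nonneg p s z))

theorem mass {p : Par V I} {s : St V I} (hp : Ok p) (hs : Base p s) {x : V} (hx : x ∉ s.Big)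
    (h6 : Phi p s ≤ 6) : ∑ i ∈ new p s x, p.lam ^ ((s.Big ∩ p.l i).card + 1) ≤ p.M := by
  have l0 : 0 < p.lam := zero_lt_one.trans_le hp.one
  have lh : 0 < p.lam ^ p.h := pow_pos l0 _
  have hN : (0 : ℝ) < Fintype.card V := Nat.cast_pos.2 (Fintype.card_pos_iff.2 ⟨x⟩)
  obtain ⟨u, hu⟩ : ∃ u : I → ℝ, ∀ i, u i = (p.lam ^ p.h)⁻¹ * p.lam ^ (s.Big ∩ p.l i).card :=
    ⟨_, fun _ => rfl⟩
  have u0 : ∀ i, 0 ≤ u i := fun i => by
    rw [hu]
    positivity
  have u1 : ∀ i ∈ new p s x, u i ≤ 1 := fun i hi => by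
    have h1 := (mem_filter.1 hi).2
    have h2 : (s.Big ∩ p.l i).card ≤ p.h := by
      refine le_trans (card_le_card fun y hy => ?_) (hp.high i)
      exact mem_filter.2 ⟨(mem_inter.1 hy).2, hs.notarr i h1.1 h1.2 y hy⟩
    rw [hu, inv_mul_le_iff₀ lh, mul_one]
    exact pow_le_pow_right₀ hp.one h2
  have h1 : (Fintype.card V * Real.exp ((p.lam ^ p.h)⁻¹ * p.D))⁻¹ *
      ∏ i ∈ new p s x, (1 + u i) ≤ 6 := by
    rw [prod_one_add, mul_sum]
    refine le_trans (le_of_eq (sum_congr rfl fun S hS => ?_)) ((sum_le hp hs x).trans h6)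
    rw [wt_sub hp hx (mem_powerset.1 hS)]
    simp only [hu]
  have h2 : Real.exp (∑ i ∈ new p s x, u i / 2) ≤ ∏ i ∈ new p s x, (1 + u i) := by
    rw [Real.exp_sum]
    exact prod_le_prod (fun i _ => (Real.exp_pos _).le) fun i hi => exp_half (u0 i) (u1 i hi)
  rw [inv_mul_le_iff₀ (mul_pos hN (Real.exp_pos _))] at h1
  have h3 : ∑ i ∈ new p s x, u i / 2 ≤
      Real.log (6 * Fintype.card V) + (p.lam ^ p.h)⁻¹ * p.D := by
    rw [← Real.exp_le_exp, Real.exp_add, Real.exp_log (by positivity)]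
    linarith
  rw [← sum_div] at h3
  have h4 : ∑ i ∈ new p s x, p.lam ^ ((s.Big ∩ p.l i).card + 1) =
      p.lam * (p.lam ^ p.h * ∑ i ∈ new p s x, u i) := by
    rw [mul_sum, mul_sum]
    refine sum_congr rfl fun i _ => ?_
    rw [hu, mul_inv_cancel_left₀ lh.ne', pow_succ']
  rw [h4, Par.M]
  refine mul_le_mul_of_nonneg_left ?_ l0.le
  have h5 := mul_le_mul_of_nonneg_left h3 lh.le
  rw [mul_add, mul_inv_cancel_left₀ lh.ne'] at h5
  linarith

end Big1A

theorem rowBig1 : Big1S := by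
  intro V I _ _ _ _ p s x hp hs hA _
  have hx : x ∉ s.Big := fun h => hA (hs.sub h)
  refine ⟨⟨sum_nonneg fun t _ => ?_, le_of_eq ?_⟩, Big1A.mass hp hs hx⟩
  · rw [Big1A.term p s hx]
    refine add_nonneg (wt_nonneg hp hs _) (mul_nonneg (sub_nonneg.2 hp.one) ?_)
    split_ifs
    · exact wt_nonneg hp hs _
    · exact le_rfl
  · rw [mul_sum, ← sum_add_distrib]
    exact sum_congr rfl fun t _ => Big1A.term p s hx t

end Pool.Agent.MP_c9a892_co.H41
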