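import Pool.Agent.MP_c9a892_co.H41.Spec

/-!
The second potential under a big move.
-/

set_option autoImplicit false

namespace Pool.Agent.MP_c9a892_co.H41

open Finset
open scoped Classical

theorem rowBig2 : Big2S := by
  intro V I _ _ _ _ p s x Lm hp hs hxA hxB hM hL
  have hlam : 0 ≤ p.lam := zero_le_one.trans hp.one
  have hθ := hp.θpos
  have hLm : 0 ≤ Lm := (L_nonneg p s x).trans (hL x hxA hxB)
  set c : I → ℝ := fun i => p.lam ^ ((s.Big ∩ p.l i).card + 1) with hc
  have hc0 : ∀ i, 0 ≤ c i := fun i => pow_nonneg hlam _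
  set δ : V → ℝ := fun z => ∑ i ∈ new p s x, if z ∈ p.l i then c i else 0 with hδ
  have hi0 : ∀ z i, 0 ≤ (if z ∈ p.l i then c i else 0) := fun z i => by
    split_ifs
    · exact hc0 i
    · exact le_rfl
  have hδ0 : ∀ z, 0 ≤ δ z := fun z => sum_nonneg fun i _ => hi0 z i
  have hδM : ∀ z, δ z ≤ p.M := fun z => le_trans (sum_le_sum fun i _ => by
    split_ifs
    · exact le_rfl
    · exact hc0 i) hM
  have hM0 : 0 ≤ p.M := (hδ0 x).trans (hδM x)
  have hn : (1 : ℝ) ≤ p.n := by exact_mod_cast hp.npos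
  have hθM : p.θ * p.M ≤ 1 := by
    have h1 := hp.θM
    have h2 := hp.one
    have h3 := mul_nonneg hθ.le hM0
    nlinarith
  have hmass : ∀ z, (mk p s x).mass z ≤ s.mass z + δ z := by
    intro z
    have e : δ z = ∑ i, if i ∈ new p s x then (if z ∈ p.l i then c i else 0) else 0 := by
      rw [hδ, ← sum_filter, filter_mem_eq_inter, univ_inter]
    rw [e, St.mass, St.mass, ← sum_add_distrib]
    refine sum_le_sum fun i _ => ?_
    have h1 := hs.nonneg z i
    change (if i ∈ new p s x ∧ z ∈ p.l i ∧ z ∉ insert x s.A ∧ z ∉ s.B then c i else s.m z i) ≤ _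
    by_cases h2 : i ∈ new p s x ∧ z ∈ p.l i ∧ z ∉ insert x s.A ∧ z ∉ s.B
    · rw [if_pos h2, if_pos h2.1, if_pos h2.2.1]
      linarith
    · rw [if_neg h2]
      refine le_add_of_nonneg_right ?_
      by_cases h3 : i ∈ new p s x
      · rw [if_pos h3]
        exact hi0 z i
      · rw [if_neg h3]
  have hstep : ∀ z ∈ (insert x s.A ∪ s.B)ᶜ,
      L p (mk p s x) z ≤ L p s z + 2 * p.θ * Lm * δ z := by
    intro z hz
    rw [mem_compl, mem_union, not_or, mem_insert, not_or] at hz
    have h0 := mul_nonneg hθ.le (hδ0 z)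
    have h1 : p.θ * δ z ≤ 1 := (mul_le_mul_of_nonneg_left (hδM z) hθ.le).trans hθM
    have h2 := Real.abs_exp_sub_one_le (x := p.θ * δ z) (by rwa [abs_of_nonneg h0])
    rw [abs_of_nonneg h0] at h2
    have h3 := (abs_le.1 h2).2
    have h4 : L p (mk p s x) z ≤ L p s z * Real.exp (p.θ * δ z) := by
      unfold L
      rw [mul_assoc, ← Real.exp_add, ← mul_add]
      exact mul_le_mul_of_nonneg_left
        (Real.exp_le_exp.2 (mul_le_mul_of_nonneg_left (hmass z) hθ.le)) (by positivity)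
    have h5 := mul_le_mul_of_nonneg_left (show Real.exp (p.θ * δ z) ≤ 1 + 2 * (p.θ * δ z) by
      linarith) (L_nonneg p s z)
    have h6 := mul_le_mul_of_nonneg_right (hL z hz.1.2 hz.2) h0
    linarith
  have hsum : ∑ z ∈ (insert x s.A ∪ s.B)ᶜ, δ z ≤ p.n * p.M := by
    refine (sum_le_sum_of_subset_of_nonneg (subset_univ _) fun z _ _ => hδ0 z).trans ?_
    refine le_trans (le_of_eq ?_) (mul_le_mul_of_nonneg_left hM (by linarith))
    rw [hδ, sum_comm, mul_sum]
    refine sum_congr rfl fun i _ => ?_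
    rw [← sum_filter, filter_mem_eq_inter, univ_inter, sum_const, hp.lin.card, nsmul_eq_mul]
  have hsub : ∑ z ∈ (insert x s.A ∪ s.B)ᶜ, L p s z ≤ ∑ z ∈ (s.A ∪ s.B)ᶜ, L p s z :=
    sum_le_sum_of_subset_of_nonneg
      (compl_subset_compl.2 (union_subset_union_left (subset_insert _ _)))
      fun z _ _ => L_nonneg p s z
  have h1 := sum_le_sum hstep
  rw [sum_add_distrib, ← mul_sum] at h1
  have h2 := mul_le_mul_of_nonneg_left hsum (by positivity : 0 ≤ 2 * p.θ * Lm)
  have h3 := mul_le_mul_of_nonneg_right hp.θM hLm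
  linarith

end Pool.Agent.MP_c9a892_co.H41
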