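import Pool.Agent.MP_c9a892_co.H41.Spec

/-! Row Can: canonical types of lines. -/

set_option autoImplicit false

namespace Pool.Agent.MP_c9a892_co.H41

open Finset
open scoped Classical

namespace CanA

variable {n d : ℕ}

theorem same {τ τ' : Ty n d} (h : Canon τ) (h' : Canon τ')
    (e : ∀ j, (τ j).isRight = (τ' j).isRight) {i k : Fin n} (hp : pt τ i = pt τ' k) : i = k := by
  obtain ⟨j, hj, hm⟩ := h
  obtain ⟨j', hj', hm'⟩ := h'
  have hjj : j = j' := by
    rcases lt_trichotomy j j' with g | g | g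
    · obtain ⟨c, hc⟩ := hm' j g
      have := e j
      simp [hj, hc] at this
    · exact g
    · obtain ⟨c, hc⟩ := hm j' g
      have := e j'
      simp [hj', hc] at this
  subst hjj
  have := congrFun hp j
  rw [pt_inr hj, pt_inr hj'] at this
  simpa using this

theorem ext {τ τ' : Ty n d} (e : ∀ j, (τ j).isRight = (τ' j).isRight) {i : Fin n}
    (hp : pt τ i = pt τ' i) (hi : i ≠ i.rev) : τ = τ' := by
  funext j
  have h1 := e j
  have h2 := congrFun hp j
  rcases h : τ j with c | b <;> rcases h' : τ' j with c' | b'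
  · rw [pt_inl h, pt_inl h'] at h2
    rw [h2]
  · simp [h, h'] at h1
  · simp [h, h'] at h1
  · rw [pt_inr h, pt_inr h'] at h2
    cases b <;> cases b' <;> simp_all [eq_comm]

theorem act {τ : Ty n d} {i i' : Fin n} (h : i ≠ i') (j : Fin d) :
    (τ j).isRight = true ↔ pt τ i j ≠ pt τ i' j := by
  rcases g : τ j with c | b
  · simp [pt_inl g]
  · rw [pt_inr g, pt_inr g]
    cases b <;> simpa using h

theorem canon (τ : Ty n d) (h : ∃ j, (τ j).isRight) : ∃ τ' : Ty n d, Canon τ' ∧ ln τ' ⊆ ln τ := by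
  obtain ⟨j, hj, hm⟩ := (wellFounded_lt (α := Fin d)).has_min {j | (τ j).isRight} h
  have hl : ∀ j' < j, ∃ c, τ j' = .inl c := fun j' g => by
    rcases g' : τ j' with c | b
    · exact ⟨c, rfl⟩
    · exact absurd g (hm j' (by simp [g']))
  obtain ⟨b, hb⟩ := Sum.isRight_iff.1 hj
  cases b
  · refine ⟨fun j => (τ j).map id not, ⟨j, by simp [hb], fun j' g => ?_⟩, fun x hx => ?_⟩
    · obtain ⟨c, hc⟩ := hl j' g
      exact ⟨c, by simp [hc]⟩
    · obtain ⟨i, rfl⟩ := mem_ln.1 hx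
      refine mem_ln.2 ⟨i.rev, funext fun j' => ?_⟩
      rcases g : τ j' with c | b
      · simp [pt, g]
      · cases b <;> simp [pt, g]
  · exact ⟨τ, ⟨j, hb, hl⟩, Subset.rfl⟩

end CanA

theorem rowCan : CanS := by
  intro n d hn
  refine ⟨⟨fun τ => ?_, fun τ τ' x y hxy hx hy hx' hy' => ?_⟩, ?_, fun τ τ' i k hp hi e => ?_⟩
  · rw [ln, card_image_of_injective _ (pt_inj τ.2.act), card_univ, Fintype.card_fin]
  · obtain ⟨i, rfl⟩ := mem_ln.1 hx
    obtain ⟨i', rfl⟩ := mem_ln.1 hy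
    obtain ⟨k, hk⟩ := mem_ln.1 hx'
    obtain ⟨k', hk'⟩ := mem_ln.1 hy'
    have h1 : i ≠ i' := fun g => hxy (by rw [g])
    have h2 : k ≠ k' := fun g => hxy (by rw [← hk, ← hk', g])
    have e : ∀ j, (τ.1 j).isRight = (τ'.1 j).isRight := fun j => by
      rw [Bool.eq_iff_iff, CanA.act h1, CanA.act h2, hk, hk']
    obtain rfl := CanA.same τ.2 τ'.2 e hk.symm
    obtain rfl := CanA.same τ.2 τ'.2 e hk'.symm
    by_cases g : i = i.rev
    · refine Subtype.ext (CanA.ext e hk'.symm fun g' => h1 (Fin.ext ?_))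
      have a1 := congrArg Fin.val g
      have a2 := congrArg Fin.val g'
      rw [Fin.val_rev] at a1 a2
      omega
    · exact Subtype.ext (CanA.ext e hk.symm g)
  · rintro A ⟨x, ⟨hi, hx⟩, hA⟩
    have h1 : ∀ j, ∃ t : Fin n ⊕ Bool, ∀ i, x i j = t.elim id fun b => if b then i else i.rev := by
      intro j
      rcases hx j with ⟨c, g⟩ | g | g
      · exact ⟨.inl c, g⟩
      · exact ⟨.inr true, g⟩
      · exact ⟨.inr false, g⟩
    choose τ hτ using h1
    have h2 : ∀ i, pt τ i = x i := fun i => funext fun j => (hτ j i).symm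
    have h3 : (⟨0, by omega⟩ : Fin n) ≠ ⟨1, by omega⟩ := by simp
    obtain ⟨j, hj⟩ := Function.ne_iff.1 (hi.ne h3)
    obtain ⟨τ', g1, g2⟩ := CanA.canon τ ⟨j, (CanA.act h3 j).2 (by rwa [h2, h2])⟩
    refine ⟨⟨τ', g1⟩, g2.trans fun y hy => ?_⟩
    obtain ⟨i, rfl⟩ := mem_ln.1 hy
    exact h2 i ▸ hA i
  · obtain rfl := CanA.same τ.2 τ'.2 e hp
    exact Subtype.ext (CanA.ext e hp hi)

end Pool.Agent.MP_c9a892_co.H41
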