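import Pool.Agent.MP_c9a892_co.H41.Spec

/-! A family of lines with large minimum degree. -/

set_option autoImplicit false

namespace Pool.Agent.MP_c9a892_co.H41

open Finset
open scoped Classical

namespace DegA

variable {n d : ℕ}

/-- the active coordinates -/
noncomputable def ac (τ : Ty n d) : Finset (Fin d) := univ.filter fun j => (τ j).isRight

/-- the inactive coordinates in the class of `a` -/
noncomputable def ia (τ : Ty n d) (a : Fin n) : Finset (Fin d) :=
  univ.filter fun j => ∃ c, τ j = .inl c ∧ cl c a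

noncomputable def fam (n d s m : ℕ) : Finset (Ty n d) :=
  univ.filter fun τ => s ≤ (ac τ).card ∧ ∀ a : Fin n, a ≠ a.rev → m ≤ (ia τ a).card

theorem mem_ac {τ : Ty n d} {j : Fin d} : j ∈ ac τ ↔ (τ j).isRight := by simp [ac]

theorem mem_ia {τ : Ty n d} {a : Fin n} {j : Fin d} :
    j ∈ ia τ a ↔ ∃ c, τ j = .inl c ∧ cl c a := by simp [ia]

theorem mem_fam {s m : ℕ} {τ : Ty n d} :
    τ ∈ fam n d s m ↔ s ≤ (ac τ).card ∧ ∀ a : Fin n, a ≠ a.rev → m ≤ (ia τ a).card := by
  simp only [fam, mem_filter, mem_univ, true_and]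

theorem card_ge (k o : ℕ) (S : Finset (Fin d)) (h : o + k ≤ d)
    (hS : ∀ j : Fin d, o ≤ j.1 → j.1 < o + k → j ∈ S) : k ≤ S.card := by
  have h1 := card_le_card_of_injOn (s := (univ : Finset (Fin k))) (t := S)
    (fun t => ⟨o + t.1, by omega⟩) (fun t _ => hS _ (by simp) (by simp)) (fun t _ t' _ e => by
      have := congrArg Fin.val e
      simp only at this
      exact Fin.ext (by omega))
  simpa using h1

theorem ne (s m : ℕ) (h : s + n / 2 * m ≤ d) : (fam n d s m).Nonempty := by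
  have hlt : ∀ j : ℕ, j < n / 2 * m → j / m < n := fun j hj =>
    (Nat.div_lt_of_lt_mul (by rwa [mul_comm] at hj)).trans_le (Nat.div_le_self n 2)
  refine ⟨fun j => if hj : j.1 < n / 2 * m then .inl ⟨j.1 / m, hlt _ hj⟩ else .inr true,
    mem_fam.2 ⟨card_ge s (n / 2 * m) _ (by omega) fun j h1 _ => ?_, fun a ha => ?_⟩⟩
  · rw [mem_ac, dif_neg (by omega)]
    rfl
  · obtain ⟨c, hc, hca⟩ : ∃ c : Fin n, c.1 < n / 2 ∧ cl c a := by
      have h1 : a.1 ≠ a.rev.1 := fun e => ha (Fin.ext e)
      have h2 := Fin.val_rev a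
      have h3 := a.2
      rcases lt_or_gt_of_ne h1 with h4 | h4
      · exact ⟨a, by omega, cl_refl a⟩
      · exact ⟨a.rev, by omega, cl_rev a⟩
    have h5 : c.1 * m + m ≤ n / 2 * m := by
      rw [← Nat.succ_mul]
      exact Nat.mul_le_mul_right m hc
    refine card_ge m (c.1 * m) _ (by omega) fun j h1 h2 => ?_
    rw [mem_ia, dif_pos (by omega)]
    refine ⟨c, congrArg _ (Fin.ext ?_), hca⟩
    exact Nat.div_eq_of_lt_le h1 (by rw [Nat.succ_mul]; exact h2)

theorem cen {s m : ℕ} {τ : Ty n d} (hτ : τ ∈ fam n d s m) {i : Fin n} (hi : i = i.rev) :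
    2 ^ s ≤ ((fam n d s m).filter fun τ' => pt τ i ∈ ln τ').card := by
  obtain ⟨h1, h2⟩ := mem_fam.1 hτ
  refine (Nat.pow_le_pow_right (by norm_num) h1).trans ?_
  rw [← card_powerset]
  refine card_le_card_of_injOn
    (fun U j => if j ∈ ac τ then .inr (decide (j ∈ U)) else τ j) (fun U _ => ?_) ?_
  · refine mem_coe.2 (mem_filter.2 ⟨mem_fam.2 ⟨h1.trans (card_le_card fun j hj => ?_),
      fun a ha => (h2 a ha).trans (card_le_card fun j hj => ?_)⟩, mem_ln.2 ⟨i, funext fun j => ?_⟩⟩)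
    · rw [mem_ac]
      simp [hj]
    · obtain ⟨c, hc, hca⟩ := mem_ia.1 hj
      have h3 : j ∉ ac τ := by simp [mem_ac, hc]
      exact mem_ia.2 ⟨c, by simp only [if_neg h3, hc], hca⟩
    · by_cases hj : j ∈ ac τ
      · obtain ⟨b, hb⟩ := Sum.isRight_iff.1 (mem_ac.1 hj)
        rw [pt_inr hb, pt_inr (b := decide (j ∈ U)) (if_pos hj), ← hi, ite_self, ite_self]
      · simp only [pt, if_neg hj]
  · intro U hU U' hU' e
    have h3 := mem_powerset.1 (mem_coe.1 hU)
    have h4 := mem_powerset.1 (mem_coe.1 hU')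
    ext j
    by_cases hj : j ∈ ac τ
    · have := congrFun e j
      simpa [hj] using this
    · exact ⟨fun h => absurd (h3 h) hj, fun h => absurd (h4 h) hj⟩

theorem gen {s m : ℕ} {τ : Ty n d} (hτ : τ ∈ fam n d s m) {i : Fin n} (hi : i ≠ i.rev) :
    (s + m).choose m ≤ ((fam n d s m).filter fun τ' => pt τ i ∈ ln τ').card := by
  obtain ⟨h1, h2⟩ := mem_fam.1 hτ
  set x := pt τ i with hx
  set S : Finset (Fin d) := univ.filter fun j => cl (x j) i with hS
  have mS : ∀ j, j ∈ S ↔ cl (x j) i := fun j => by simp [hS]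
  have hc : s + m ≤ S.card := by
    have h3 : Disjoint (ac τ) (ia τ i) := by
      refine disjoint_left.2 fun j hj hj' => ?_
      obtain ⟨c, hc, -⟩ := mem_ia.1 hj'
      simp [mem_ac, hc] at hj
    refine (Nat.add_le_add h1 (h2 i hi)).trans ?_
    rw [← card_union_of_disjoint h3]
    refine card_le_card fun j hj => (mS j).2 ?_
    rcases mem_union.1 hj with hj | hj
    · obtain ⟨b, hb⟩ := Sum.isRight_iff.1 (mem_ac.1 hj)
      rw [hx, pt_inr hb]
      cases b
      · exact cl_rev i
      · exact cl_refl i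
    · obtain ⟨c, hc, hci⟩ := mem_ia.1 hj
      rwa [hx, pt_inl hc]
  refine (Nat.choose_le_choose m hc).trans ?_
  rw [← card_powersetCard]
  refine card_le_card_of_injOn
    (fun T j => if j ∈ S \ T then .inr (decide (x j = i)) else .inl (x j)) (fun T hT => ?_) ?_
  · obtain ⟨hT1, hT2⟩ := mem_powersetCard.1 (mem_coe.1 hT)
    refine mem_coe.2 (mem_filter.2 ⟨mem_fam.2 ⟨?_, fun a ha => ?_⟩,
      mem_ln.2 ⟨i, funext fun j => ?_⟩⟩)
    · have h3 : s ≤ (S \ T).card := by
        rw [card_sdiff_of_subset hT1]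
        omega
      refine h3.trans (card_le_card fun j hj => ?_)
      rw [mem_ac]
      simp only [if_pos hj]
      rfl
    · by_cases hai : cl i a
      · refine hT2.ge.trans (card_le_card fun j hj => ?_)
        have h3 : j ∉ S \ T := fun h => (mem_sdiff.1 h).2 hj
        exact mem_ia.2 ⟨x j, if_neg h3, cl_trans ((mS j).1 (hT1 hj)) hai⟩
      · refine (h2 a ha).trans (card_le_card fun j hj => ?_)
        obtain ⟨c, hc, hca⟩ := mem_ia.1 hj
        have h4 : x j = c := pt_inl hc i
        have h3 : j ∉ S \ T := fun h =>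
          hai (cl_trans (cl_symm (h4 ▸ (mS j).1 (mem_sdiff.1 h).1)) hca)
        exact mem_ia.2 ⟨x j, if_neg h3, h4 ▸ hca⟩
    · by_cases hj : j ∈ S \ T
      · rw [pt_inr (b := decide (x j = i)) (if_pos hj)]
        by_cases h3 : x j = i
        · simp [h3]
        · simp only [h3, decide_false, Bool.false_eq_true, if_false]
          exact (((mS j).1 (mem_sdiff.1 hj).1).resolve_left h3).symm
      · exact pt_inl (if_neg hj) i
  · intro T hT T' hT' e
    have h3 := (mem_powersetCard.1 (mem_coe.1 hT)).1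
    have h4 := (mem_powersetCard.1 (mem_coe.1 hT')).1
    ext j
    by_cases hj : j ∈ S
    · have := congrFun e j
      by_cases a1 : j ∈ T <;> by_cases a2 : j ∈ T' <;> simp [hj, a1, a2] at this ⊢
    · exact ⟨fun h => absurd (h3 h) hj, fun h => absurd (h4 h) hj⟩

end DegA

open DegA in
theorem rowDeg : DegS := by
  intro n d s m hs h
  refine ⟨fam n d s m, ne s m h, fun τ hτ => ?_, fun τ hτ i => ?_⟩
  · obtain ⟨j, hj⟩ := card_pos.1 (lt_of_lt_of_le hs (mem_fam.1 hτ).1)
    exact ⟨j, mem_ac.1 hj⟩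
  · by_cases hi : i = i.rev
    · exact (min_le_right _ _).trans (by convert cen hτ hi)
    · exact (min_le_left _ _).trans (by convert gen hτ hi)

end Pool.Agent.MP_c9a892_co.H41
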