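import Pool.Agent.MP_c9a892_co.H41.Spec

set_option autoImplicit false

namespace Pool.Agent.MP_c9a892_co.H41

open Finset
open scoped Classical

namespace FewA

variable {n d : ℕ}

theorem cl_ite (b : Bool) (i : Fin n) : cl i (if b then i else i.rev) := by
  cases b
  · exact cl_symm (by simpa using cl_rev i)
  · exact cl_refl i

/-- The four kinds of coordinates of a path. -/
theorem kinds (τ τ' : Ty n d) (i i' k k' : Fin n) (h : pt τ i' = pt τ' k) (j : Fin d) :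
    ((τ j).isRight = false ∧ (τ' j).isRight = false ∧ pt τ i j = pt τ i' j ∧
        pt τ' k' j = pt τ i' j) ∨
      ((τ j).isRight = true ∧ (τ' j).isRight = false ∧ cl i (pt τ i j) ∧ cl i' (pt τ i' j) ∧
        pt τ' k' j = pt τ i' j) ∨
      ((τ j).isRight = false ∧ (τ' j).isRight = true ∧ pt τ i j = pt τ i' j ∧ cl k (pt τ i' j) ∧
        cl k' (pt τ' k' j)) ∨
      ((τ j).isRight = true ∧ (τ' j).isRight = true ∧ cl i (pt τ i j) ∧ cl i' k ∧
        cl k' (pt τ' k' j) ∧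
        (pt τ i j = i ∧ pt τ i' j = i' ∨ pt τ i j = i.rev ∧ pt τ i' j = i'.rev)) := by
  have e := congrFun h j
  rcases h1 : τ j with c | b <;> rcases h2 : τ' j with c' | b'
  · left
    refine ⟨rfl, rfl, by rw [pt_inl h1, pt_inl h1], by rw [e, pt_inl h2, pt_inl h2]⟩
  · right; right; left
    refine ⟨rfl, rfl, by rw [pt_inl h1, pt_inl h1], ?_, ?_⟩
    · rw [e, pt_inr h2]; exact cl_ite _ _
    · rw [pt_inr h2]; exact cl_ite _ _
  · right; left
    refine ⟨rfl, rfl, ?_, ?_, by rw [e, pt_inl h2, pt_inl h2]⟩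
    · rw [pt_inr h1]; exact cl_ite _ _
    · rw [pt_inr h1]; exact cl_ite _ _
  · right; right; right
    refine ⟨rfl, rfl, ?_, ?_, ?_, ?_⟩
    · rw [pt_inr h1]; exact cl_ite _ _
    · have a1 : cl i' (pt τ i' j) := by rw [pt_inr h1]; exact cl_ite _ _
      have a2 : cl k (pt τ i' j) := by rw [e, pt_inr h2]; exact cl_ite _ _
      exact cl_trans a1 (cl_symm a2)
    · rw [pt_inr h2]; exact cl_ite _ _
    · rw [pt_inr h1, pt_inr h1]
      cases b <;> simp

/-- The middle point from the two positions and one bit. -/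
noncomputable def mid (y z : Fin d → Fin n) (x : Fin n × Fin n × Bool) : Fin d → Fin n :=
  fun j => if y j = z j then y j else if cl x.2.1 (z j) then z j else
    if x.2.2 = true ∧ cl x.1 (y j) then (if y j = x.1 then x.2.1 else x.2.1.rev) else y j

noncomputable def PP (y z : Fin d → Fin n) : Finset (Fin n) :=
  univ.filter fun a => ∃ j, y j ≠ z j ∧ (cl a (y j) ∨ cl a (z j))

theorem card_PP {y w z : Fin d → Fin n} (h : GP y w z) : (PP y z).card ≤ 8 := by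
  obtain ⟨τ, τ', i, i', k, k', rfl, rfl, h3, rfl, -⟩ := h
  have hsub : PP (pt τ i) (pt τ' k') ⊆ {i, i.rev, i', i'.rev, k, k.rev, k', k'.rev} := by
    intro a ha
    obtain ⟨j, hne, hj⟩ := (mem_filter.1 ha).2
    have key : cl a i ∨ cl a i' ∨ cl a k ∨ cl a k' := by
      rcases kinds τ τ' i i' k k' h3.symm j with ⟨-, -, a1, a2⟩ | ⟨-, -, a1, a2, a3⟩ |
        ⟨-, -, a1, a2, a3⟩ | ⟨-, -, a1, -, a3, -⟩
      · exact absurd (a1.trans a2.symm) hne
      · rcases hj with hj | hj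
        · exact Or.inl (cl_trans hj (cl_symm a1))
        · exact Or.inr (Or.inl (cl_trans hj (a3 ▸ cl_symm a2)))
      · rcases hj with hj | hj
        · exact Or.inr (Or.inr (Or.inl (cl_trans hj (a1 ▸ cl_symm a2))))
        · exact Or.inr (Or.inr (Or.inr (cl_trans hj (cl_symm a3))))
      · rcases hj with hj | hj
        · exact Or.inl (cl_trans hj (cl_symm a1))
        · exact Or.inr (Or.inr (Or.inr (cl_trans hj (cl_symm a3))))
    simp only [mem_insert, mem_singleton]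
    rcases key with (h | h) | (h | h) | (h | h) | (h | h) <;> simp [h]
  refine (card_le_card hsub).trans ?_
  repeat refine (card_insert_le _ _).trans (Nat.succ_le_succ ?_)
  simp

theorem mem_image {y w z : Fin d → Fin n} (h : GP y w z) :
    ∃ x ∈ PP y z ×ˢ PP y z ×ˢ (univ : Finset Bool), mid y z x = w := by
  obtain ⟨τ, τ', i, i', k, k', rfl, rfl, h3, rfl, ⟨j₁, hj₁⟩, -, ⟨j₂, hj₂⟩, hi, n1, n2, n3, n4⟩ := h
  have K := kinds τ τ' i i' k k' h3.symm
  have ne2 : ∀ j, cl i (pt τ i j) → cl i' (pt τ' k' j) → pt τ i j ≠ pt τ' k' j :=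
    fun j a b e => n1 (cl_trans a (e ▸ cl_symm b))
  have ne3 : ∀ j, cl k (pt τ i j) → cl k' (pt τ' k' j) → pt τ i j ≠ pt τ' k' j :=
    fun j a b e => n2 (cl_trans a (e ▸ cl_symm b))
  have ne4 : ∀ j, cl i (pt τ i j) → cl k' (pt τ' k' j) → pt τ i j ≠ pt τ' k' j :=
    fun j a b e => n3 (cl_trans a (e ▸ cl_symm b))
  refine ⟨(i, i', decide (cl i' k)), ?_, ?_⟩
  · simp only [mem_product, PP, mem_filter, mem_univ, true_and, and_true]
    constructor
    · rcases K j₁ with ⟨a, -⟩ | ⟨-, -, a1, a2, a3⟩ | ⟨a, -⟩ | ⟨-, -, a1, -, a3, -⟩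
      · simp [a] at hj₁
      · exact ⟨j₁, ne2 j₁ a1 (a3 ▸ a2), Or.inl a1⟩
      · simp [a] at hj₁
      · exact ⟨j₁, ne4 j₁ a1 a3, Or.inl a1⟩
    · rcases K j₁ with ⟨a, -⟩ | ⟨-, -, a1, a2, a3⟩ | ⟨a, -⟩ | ⟨-, -, -, c, -⟩
      · simp [a] at hj₁
      · exact ⟨j₁, ne2 j₁ a1 (a3 ▸ a2), Or.inr (a3 ▸ a2)⟩
      · simp [a] at hj₁
      · rcases K j₂ with ⟨a, b, -⟩ | ⟨-, -, a1, a2, a3⟩ | ⟨-, -, a1, a2, a3⟩ | ⟨a, b, -⟩
        · simp [a, b] at hj₂
        · exact ⟨j₂, ne2 j₂ a1 (a3 ▸ a2), Or.inr (a3 ▸ a2)⟩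
        · exact ⟨j₂, ne3 j₂ (a1 ▸ a2) a3, Or.inl (cl_trans c (a1 ▸ a2))⟩
        · simp [a, b] at hj₂
  · funext j
    simp only [mid, decide_eq_true_eq]
    rcases K j with ⟨-, -, a1, a2⟩ | ⟨-, -, a1, a2, a3⟩ | ⟨-, -, a1, a2, a3⟩ |
      ⟨-, -, a1, a2, a3, a4⟩
    · rw [if_pos (a1.trans a2.symm), a1]
    · rw [if_neg (ne2 j a1 (a3 ▸ a2)), if_pos (a3 ▸ a2), a3]
    · rw [if_neg (ne3 j (a1 ▸ a2) a3), if_neg fun c => n4 (cl_trans c (cl_symm a3)),
        if_neg fun c => n1 (cl_trans c.2 (cl_symm (cl_trans c.1 (a1 ▸ a2)))), a1]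
    · rw [if_neg (ne4 j a1 a3), if_neg fun c => n4 (cl_trans c (cl_symm a3)), if_pos ⟨a2, a1⟩]
      rcases a4 with ⟨b1, b2⟩ | ⟨b1, b2⟩
      · rw [if_pos b1, b2]
      · rw [if_neg (fun c => hi (c.symm.trans b1)), b2]

end FewA

open FewA in
theorem rowFew : FewS := by
  intro n d y z
  by_cases h : ∃ w, GP y w z
  · obtain ⟨w₀, h₀⟩ := h
    refine ⟨(PP y z ×ˢ PP y z ×ˢ (univ : Finset Bool)).image (mid y z), ?_,
      fun w hw => Finset.mem_image.2 (FewA.mem_image hw)⟩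
    refine card_image_le.trans ?_
    have := card_PP h₀
    simp only [card_product, card_univ, Fintype.card_bool]
    nlinarith
  · exact ⟨∅, by simp, fun w hw => absurd ⟨w, hw⟩ h⟩

end Pool.Agent.MP_c9a892_co.H41
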