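import Pool.Agent.MP_c9a892_co.H41.Spec

/-!
Freezing a line keeps the potential; certified pairs avoid the forbidden configurations.
-/

set_option autoImplicit false

namespace Pool.Agent.MP_c9a892_co.H41

open Finset
open scoped Classical

namespace FrzA

variable {V I : Type} [Fintype V] [DecidableEq V] [Fintype I] [DecidableEq I]
  {p : Par V I} {s : St V I}

theorem freeze (hp : Ok p) (hs : Mid p s) {i : I} {z z' : V} (hi : i ∉ s.done)
    (hB : Disjoint s.B (p.l i)) (hb : p.b ≤ (s.Big ∩ p.l i).card) (hz : z ∈ p.l i)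
    (hz' : z' ∈ p.l i) (hA : z ∉ s.A) (hA' : z' ∉ s.A) :
    Mid p { s with C := insert (z, i) (insert (z', i) s.C) } := by
  obtain ⟨b, hΦ⟩ := hs
  have hd : ∀ j, j ∈ St.done { s with C := insert (z, i) (insert (z', i) s.C) } ↔
      j = i ∨ j ∈ s.done := fun j => by simp [St.done]
  have ha : i ∈ s.arr := by
    by_contra hn
    have h1 : s.Big ∩ p.l i ⊆ (p.l i).filter fun x => i ∉ p.low x := fun x hx =>
      mem_filter.2 ⟨(mem_inter.1 hx).2, b.notarr i hn hB x hx⟩
    exact absurd ((hb.trans (card_le_card h1)).trans (hp.high i)) (not_le.2 hp.hb)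
  have hc : ∀ y ∈ p.l i, y ∉ s.A → p.lam ^ p.b ≤ s.m y i * p.lam ^ (s.cnt i).card :=
    fun y hy hy' => by
      rw [b.reg i ha hi y hy hy' fun h => disjoint_left.1 hB h hy]
      exact pow_le_pow_right₀ hp.one hb
  refine ⟨⟨b.sub, b.nonneg, b.mass, b.mz, b.cz, b.csub, b.notarr,
    fun j hj hj' => b.reg j hj fun h => hj' ((hd j).2 (Or.inr h)), fun c hc' => ?_⟩,
    le_trans (le_of_eq ?_) hΦ⟩
  · rcases mem_insert.1 hc' with rfl | hc'
    · exact hc z hz hA
    rcases mem_insert.1 hc' with rfl | hc'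
    · exact hc z' hz' hA'
    · exact b.cert c hc'
  · unfold Phi
    congr 1
    refine sum_congr rfl fun t _ => ?_
    cases t with
    | inl t => rfl
    | inr t =>
      refine if_congr ?_ rfl rfl
      simp only [kill, disjoint_biUnion_right]
      refine forall₂_congr fun k _ => ?_
      cases t.2 k with
      | none => rfl
      | some j =>
        simp only [Option.elim_some, hd]
        by_cases e : j = i
        · simp [e, hi, hB]
        · simp [e]

theorem forb (hp : Ok p) (hs : Mid p s) {z : Fin p.J0 → V} (hz : z ∈ p.Z) {σ : Fin p.J0 → I}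
    (hσ : ∀ k, (z k, σ k) ∈ s.C) :
    (univ.biUnion fun k => p.l (σ k)).card + p.E < p.J0 * p.n := by
  obtain ⟨b, hΦ⟩ := hs
  by_contra hn
  have h0 : 0 ≤ p.lam := zero_le_one.trans hp.one
  have h1 : (univ.biUnion fun k => p.l (σ k)) ⊆ (univ.biUnion fun k => s.cnt (σ k)) ∪
      univ.biUnion fun k => p.l (σ k) \ s.cnt (σ k) := fun x hx => by
    obtain ⟨k, -, hk⟩ := mem_biUnion.1 hx
    by_cases e : x ∈ s.cnt (σ k)
    · exact mem_union_left _ (mem_biUnion.2 ⟨k, mem_univ _, e⟩)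
    · exact mem_union_right _ (mem_biUnion.2 ⟨k, mem_univ _, mem_sdiff.2 ⟨hk, e⟩⟩)
  have h2 := (card_le_card h1).trans ((card_union_le _ _).trans (add_le_add le_rfl card_biUnion_le))
  have h3 : ∑ k, (p.l (σ k) \ s.cnt (σ k)).card + ∑ k, (s.cnt (σ k)).card = p.J0 * p.n := by
    rw [← sum_add_distrib, sum_congr rfl fun k _ =>
      (card_sdiff_add_card_eq_card ((b.csub (σ k)).trans inter_subset_right)).trans
        (hp.lin.card (σ k))]
    simp
  have h4 : ∑ k, (s.cnt (σ k)).card ≤ (univ.biUnion fun k => s.cnt (σ k)).card + p.E := by omega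
  have h5 : p.lam ^ (p.J0 * p.b) ≤ (∏ k, s.m (z k) (σ k)) * p.lam ^ ∑ k, (s.cnt (σ k)).card := by
    rw [← prod_pow_eq_pow_sum, ← prod_mul_distrib]
    refine le_trans (le_of_eq ?_)
      (prod_le_prod (fun k _ => pow_nonneg h0 p.b) fun k _ => b.cert _ (hσ k))
    simp [← pow_mul, mul_comm]
  have h6 := (wt_le_Phi hp b (.inr (z, fun k => some (σ k)))).trans hΦ
  have h7 : ∀ k, σ k ∈ s.done := fun k => mem_image.2 ⟨_, hσ k, rfl⟩
  have h8 : Disjoint s.B (kill p s (.inr (z, fun k => some (σ k)))) := by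
    simp [kill, disjoint_biUnion_right, h7]
  rw [wt, if_pos h8] at h6
  simp only [raw, if_pos hz, mo, Option.elim_some] at h6
  have h9 : (0 : ℝ) < p.Z.card * p.T ^ p.J0 :=
    mul_pos (Nat.cast_pos.2 (card_pos.2 ⟨z, hz⟩)) (pow_pos hp.Tpos _)
  rw [mul_assoc, inv_mul_le_iff₀ h9] at h6
  have hm : 0 ≤ ∏ k, s.m (z k) (σ k) := prod_nonneg fun k _ => b.nonneg _ _
  have h10 := mul_le_mul_of_nonneg_left (pow_le_pow_right₀ hp.one h4) hm
  rw [pow_add, ← mul_assoc] at h10
  have h11 := mul_le_mul_of_nonneg_right h6 (pow_nonneg h0 p.E)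
  have h12 := hp.big
  linarith

end FrzA

theorem rowFrz : FrzS := fun _ _ _ _ _ _ _ _ hp hs =>
  ⟨fun _ _ _ hi hB hb hz hz' hA hA' => FrzA.freeze hp hs hi hB hb hz hz' hA hA',
    fun _ hz _ hσ => FrzA.forb hp hs hz hσ⟩

end Pool.Agent.MP_c9a892_co.H41
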