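import Pool.Agent.MP_c9a892_co.H41.Spec

/-! The pairing strategy of the second player. -/

set_option autoImplicit false

namespace Pool.Agent.MP_c9a892_co.H41

open Finset
open scoped Classical

namespace GameA

variable {V I : Type} [Fintype V] [DecidableEq V] [Fintype I] [DecidableEq I]
  {l : I → Finset V} {n b t i0 J0 E : ℕ} {Z : Finset (Fin J0 → V)}
  {G M : Finset V → Finset V → Finset V → Finset (V × I) → Prop}

/-- the invariant before a move of the first player -/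
def P (l : I → Finset V) (b t : ℕ) (G : Finset V → Finset V → Finset V → Finset (V × I) → Prop)
    (A B : Finset V) : Prop :=
  ∃ Big C Hv, G A B Big C ∧ PI l (t + 1) A B Big C Hv ∧ Cap l b t B Big C Hv

omit [Fintype V] [Fintype I] in
theorem cap_ins {B Big : Finset V} {C Hv : Finset (V × I)} (h : Cap l b t B Big C Hv) (y : V) :
    Cap l b t (insert y B) Big C Hv :=
  fun i h1 h2 => h i h1 (h2.mono_left (subset_insert _ _))

omit [Fintype V] [Fintype I] in
theorem pi_ins {A B Big : Finset V} {C Hv : Finset (V × I)} (h : PI l t A B Big C Hv) {y : V}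
    (hy : y ∉ A) : PI l t A (insert y B) Big C Hv :=
  ⟨disjoint_insert_right.2 ⟨hy, h.dis⟩, h.cov, h.two, h.mem, h.uniq,
    fun p hp hd => h.pair p hp (hd.mono_left (subset_insert _ _)), h.heavy⟩

theorem two (hF : FreeS) (hl : Lin l n) (hn : b + 1 + (t + 1) + i0 + 1 ≤ n)
    (hE : Eng l n (b + 1) J0 E Z G M) (hR : FewRich l (t + 1) i0 M) {A B : Finset V}
    (h : P l b t G A B) (i : I) (hi : Disjoint B (l i)) :
    ∃ z z', z ≠ z' ∧ z ∈ l i ∧ z' ∈ l i ∧ z ∉ A ∧ z' ∉ A := by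
  obtain ⟨Big, C, Hv, h1, h2, h3⟩ := h
  by_cases k : i ∈ (C ∪ Hv).image Prod.snd
  · obtain ⟨p, hp, rfl⟩ := mem_image.1 k
    obtain ⟨a, z, a1, a2⟩ := h2.pair p hp hi
    exact ⟨z, p.1, a1, h2.mem _ a2, h2.mem p hp, (h2.pair _ a2 hi).1, a⟩
  · obtain ⟨z, z', a1, a2, a3, a4, a5, -⟩ := hF V I l n b (t + 1) i0 A B Big C Hv i hl (by omega) h2
      (fun j k1 k2 => ⟨(h3 j k1 k2).1, (h3 j k1 k2).2.trans (Nat.le_succ _)⟩)
      (hR A B Big C (hE.gm _ _ _ _ h1) h2.two i) k hi
    exact ⟨z, z', a1, a2, a3, a4, a5⟩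

theorem step (hL : LoopS) (hl : Lin l n) (hn : b + 1 + (t + 1) + i0 + 1 ≤ n)
    (hE : Eng l n (b + 1) J0 E Z G M) (hR : FewRich l (t + 1) i0 M) {A B : Finset V}
    (h : P l b t G A B) {x : V} (hA : x ∉ A) (hB : x ∉ B)
    (hf : ∃ y, y ∉ insert x A ∧ y ∉ B) :
    ∃ y, y ∉ insert x A ∧ y ∉ B ∧ P l b t G (insert x A) (insert y B) := by
  obtain ⟨Big, C, Hv, h1, h2, h3⟩ := h
  have hd : Disjoint (insert x A) B := disjoint_insert_left.2 ⟨hB, h2.dis⟩
  by_cases k : x ∈ (C ∪ Hv).image Prod.fst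
  · obtain ⟨p, hp, rfl⟩ := mem_image.1 k
    have hy : ∃ y, y ∉ insert p.1 A ∧ y ∉ B ∧ ¬ Disjoint (insert y B) (l p.2) := by
      by_cases a : Disjoint B (l p.2)
      · obtain ⟨-, z, a1, a2⟩ := h2.pair p hp a
        have a3 : z ∈ l p.2 := h2.mem _ a2
        refine ⟨z, fun a4 => ?_, fun a4 => disjoint_left.1 a a4 a3,
          fun a4 => disjoint_left.1 a4 (mem_insert_self _ _) a3⟩
        rcases mem_insert.1 a4 with a5 | a5
        · exact a1 a5
        · exact (h2.pair _ a2 a).1 a5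
      · obtain ⟨y, a1, a2⟩ := hf
        exact ⟨y, a1, a2, fun a3 => a (a3.mono_left (subset_insert _ _))⟩
    obtain ⟨y, y1, y2, y3⟩ := hy
    refine ⟨y, y1, y2, Big, C, Hv, hE.brk _ _ _ _ y (hE.small _ _ _ _ _ h1 hA hB) y1 y2,
      ⟨disjoint_insert_right.2 ⟨y1, hd⟩, fun z hz => ?_, h2.two, h2.mem, h2.uniq,
        fun q hq a => ?_, h2.heavy⟩, cap_ins h3 y⟩
    · rcases mem_insert.1 hz with rfl | hz
      · exact Or.inr k
      · exact h2.cov z hz
    · obtain ⟨a1, a2⟩ := h2.pair q hq (a.mono_left (subset_insert _ _))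
      refine ⟨fun a3 => ?_, a2⟩
      rcases mem_insert.1 a3 with a4 | a4
      · exact y3 (h2.uniq q hq p hp a4 ▸ a)
      · exact a1 a4
  · have a1 : PI l (t + 1) (insert x A) B (insert x Big) C Hv := by
      refine ⟨hd, fun z hz => ?_, h2.two, h2.mem, h2.uniq, fun q hq a => ?_, h2.heavy⟩
      · rcases mem_insert.1 hz with rfl | hz
        · exact Or.inl (mem_insert_self _ _)
        · exact (h2.cov z hz).imp_left mem_insert_of_mem
      · obtain ⟨a1, a2⟩ := h2.pair q hq a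
        refine ⟨fun a3 => ?_, a2⟩
        rcases mem_insert.1 a3 with a4 | a4
        · exact k (a4 ▸ mem_image_of_mem _ hq)
        · exact a1 a4
    have a2 : Cap l (b + 1) (t + 1) B (insert x Big) C Hv := fun j k1 k2 => by
      refine ⟨?_, (h3 j k1 k2).2.trans (Nat.le_succ _)⟩
      have : insert x Big ∩ l j ⊆ insert x (Big ∩ l j) := fun z hz => by
        simp only [mem_inter, mem_insert] at hz ⊢
        tauto
      exact (card_le_card this).trans ((card_insert_le _ _).trans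
        (Nat.succ_le_succ (h3 j k1 k2).1))
    obtain ⟨C', Hv', b1, b2, b3⟩ := hL V I l n b t i0 J0 E Z G M hl hn hE hR _ _ _ C Hv
      (hE.big _ _ _ _ x h1 hA hB) a1 a2
    obtain ⟨y, y1, y2, y3⟩ := hE.best _ _ _ _ b1 hf
    exact ⟨y, y1, y2, _, C', Hv', y3, pi_ins b2 y1, cap_ins b3 y⟩

end GameA

theorem rowGame : OfGame := by
  intro hF hL V I _ _ _ _ l n b t i0 J0 E Z G M hl hn hE hR H K hH
  have key : ∀ A B f, Win H K A B f → (f = true → ¬ GameA.P l b t G A B) ∧
      (f = false → ¬ H A → ¬ ((∃ y, y ∉ A ∧ y ∉ B) →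
        ∃ y, y ∉ A ∧ y ∉ B ∧ GameA.P l b t G A (insert y B))) := by
    intro A B f hw
    induction hw with
    | done A B f h =>
      refine ⟨fun _ hP => ?_, fun _ k => absurd h k⟩
      obtain ⟨i, hi⟩ := hH A h
      have hd : Disjoint A B := by
        obtain ⟨_, _, _, -, h2, -⟩ := hP
        exact h2.dis
      obtain ⟨z, -, -, a, -, a', -⟩ := GameA.two hF hl hn hE hR hP i (hd.symm.mono_right hi)
      exact a' (hi a)
    | first A B x hA hB _ ih =>
      refine ⟨fun _ hP => ih.2 rfl (fun h => ?_) (GameA.step hL hl hn hE hR hP hA hB),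
        fun k => absurd k (by simp)⟩
      obtain ⟨i, hi⟩ := hH _ h
      have hd : Disjoint (insert x A) B := by
        obtain ⟨_, _, _, -, h2, -⟩ := hP
        exact disjoint_insert_left.2 ⟨hB, h2.dis⟩
      obtain ⟨z, z', a1, a2, a3, a4, a5⟩ := GameA.two hF hl hn hE hR hP i (hd.symm.mono_right hi)
      exact a1 (((mem_insert.1 (hi a2)).resolve_right a4).trans
        ((mem_insert.1 (hi a3)).resolve_right a5).symm)
    | second A B hf _ _ ih =>
      refine ⟨fun k => absurd k (by simp), fun _ _ k => ?_⟩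
      obtain ⟨y, y1, y2, y3⟩ := k hf
      exact (ih y y1 y2).1 rfl y3
  refine fun hw => (key _ _ _ hw).1 rfl ⟨∅, ∅, ∅, hE.init, ⟨?_, ?_, ?_, ?_, ?_, ?_, ?_⟩, ?_⟩
  all_goals simp [Cap]

end Pool.Agent.MP_c9a892_co.H41
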