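import Pool.Agent.MP_c9a892_co.H41.Spec

/-! Few rich lines meet a line, and an alive unpaired line has two free points. -/

set_option autoImplicit false

namespace Pool.Agent.MP_c9a892_co.H41

open Finset
open scoped Classical

namespace HlA

variable {V I : Type} [DecidableEq V] [DecidableEq I]

theorem meet {l : I → Finset V} {n : ℕ} (h : Lin l n) (F : Finset I) (i : I) :
    ((F.erase i).biUnion fun ρ => l ρ ∩ l i).card ≤ F.card := by
  refine (card_biUnion_le_card_mul _ _ 1 fun ρ hρ => ?_).trans ?_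
  · refine card_le_one.2 fun x hx y hy => ?_
    by_contra hne
    exact ne_of_mem_erase hρ (h.lin ρ i x y hne (mem_inter.1 hx).1 (mem_inter.1 hy).1
      (mem_inter.1 hx).2 (mem_inter.1 hy).2)
  · rw [mul_one]
    exact card_erase_le

theorem count {l : I → Finset V} {n t0 : ℕ} (h : Lin l n) (F : Finset I) (X : Finset V)
    (hF : ∀ ρ ∈ F, t0 ≤ (l ρ ∩ X).card) :
    F.card * t0 ≤ (F.biUnion l ∩ X).card + F.card ^ 2 := by
  set S : I → Finset V := fun ρ => (l ρ ∩ X).filter fun x => ∀ ρ' ∈ F, ρ' ≠ ρ → x ∉ l ρ' with hS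
  have h1 : ∀ ρ ∈ F, t0 ≤ (S ρ).card + F.card := by
    intro ρ hρ
    have h2 : l ρ ∩ X ⊆ S ρ ∪ (F.erase ρ).biUnion fun ρ' => l ρ' ∩ l ρ := by
      intro x hx
      by_cases hx' : ∀ ρ' ∈ F, ρ' ≠ ρ → x ∉ l ρ'
      · exact mem_union_left _ (mem_filter.2 ⟨hx, hx'⟩)
      · push Not at hx'
        obtain ⟨ρ', a1, a2, a3⟩ := hx'
        exact mem_union_right _ (mem_biUnion.2
          ⟨ρ', mem_erase.2 ⟨a2, a1⟩, mem_inter.2 ⟨a3, (mem_inter.1 hx).1⟩⟩)
    exact (hF ρ hρ).trans ((card_le_card h2).trans ((card_union_le _ _).trans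
      (Nat.add_le_add_left (meet h F ρ) _)))
  have h3 : (F.biUnion S).card = ∑ ρ ∈ F, (S ρ).card := by
    refine card_biUnion fun ρ hρ ρ' _ hne => ?_
    refine disjoint_left.2 fun x hx hx' => ?_
    exact (mem_filter.1 hx').2 ρ hρ hne (mem_inter.1 (mem_filter.1 hx).1).1
  have h4 : F.biUnion S ⊆ F.biUnion l ∩ X := by
    intro x hx
    obtain ⟨ρ, hρ, hx⟩ := mem_biUnion.1 hx
    have h5 := mem_inter.1 (mem_filter.1 hx).1
    exact mem_inter.2 ⟨mem_biUnion.2 ⟨ρ, hρ, h5.1⟩, h5.2⟩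
  have h6 := card_le_card h4
  have h7 := sum_le_sum h1
  rw [sum_const, smul_eq_mul, sum_add_distrib, sum_const, smul_eq_mul, ← h3] at h7
  rw [sq]
  omega

end HlA

open HlA in
theorem rowHl : HlS ∧ FreeS := by
  constructor
  · intro V I _ _ _ _ l n J J0 E t0 i0 C hl hS hJ h2 hZ i
    by_contra hcon
    obtain ⟨F, hF, hc⟩ := exists_subset_card_eq (not_lt.1 hcon)
    have hF' : ∀ ρ ∈ F, (l ρ ∩ l i).Nonempty ∧ t0 ≤ (l ρ ∩ C.image Prod.fst).card :=
      fun ρ hρ => (mem_filter.1 (hF hρ)).2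
    have h3 := count hl F (C.image Prod.fst) fun ρ hρ => (hF' ρ hρ).2
    set C' := C.filter fun p => p.1 ∈ F.biUnion l with hC'
    have h4 : F.biUnion l ∩ C.image Prod.fst ⊆ C'.image Prod.fst := by
      intro x hx
      obtain ⟨p, hp, rfl⟩ := mem_image.1 (mem_inter.1 hx).2
      exact mem_image_of_mem _ (mem_filter.2 ⟨hp, (mem_inter.1 hx).1⟩)
    have h5 : C'.card ≤ 2 * (C'.image Prod.snd).card :=
      card_le_mul_card_image _ 2 fun j _ =>
        (card_le_card (filter_subset_filter _ (filter_subset _ _))).trans (h2 j)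
    have h6 := (card_le_card h4).trans card_image_le
    rw [hc] at h3
    obtain ⟨σ, hσ, hσ'⟩ := hS (C'.image Prod.snd) (by omega)
    have h7 : ∀ k, ∃ z, (z, σ k) ∈ C ∧ ∃ ρ ∈ F, z ∈ l ρ := by
      intro k
      obtain ⟨p, hp, e⟩ := mem_image.1 (hσ k)
      refine ⟨p.1, ?_, mem_biUnion.1 (mem_filter.1 hp).2⟩
      rw [← e]
      exact (mem_filter.1 hp).1
    choose z hz hz' using h7
    have h8 := hZ z (mem_filter.2 ⟨mem_univ _, i, F, hc, fun ρ hρ => (hF' ρ hρ).1, hz'⟩) σ hz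
    omega
  · intro V I _ _ _ _ l n b t0 i0 A B Big C Hv i hl hn hP hC hr hi hB
    obtain ⟨h1, h2⟩ := hC i hi hB
    set Gd := (l i).filter fun z => z ∉ A ∧ z ∉ (C ∪ Hv).image Prod.fst with hGd
    have h3 : l i ⊆ Gd ∪ (Big ∩ l i) ∪ (l i ∩ C.image Prod.fst) ∪
        ((rich l t0 C i).erase i).biUnion fun ρ => l ρ ∩ l i := by
      intro z hz
      by_cases hzC : z ∈ (C ∪ Hv).image Prod.fst
      · obtain ⟨p, hp, rfl⟩ := mem_image.1 hzC
        rcases mem_union.1 hp with hp' | hp'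
        · exact mem_union_left _ (mem_union_right _ (mem_inter.2 ⟨hz, mem_image_of_mem _ hp'⟩))
        · have h4 : p.1 ∈ l p.2 ∩ l i := mem_inter.2 ⟨hP.mem p hp, hz⟩
          refine mem_union_right _ (mem_biUnion.2 ⟨p.2, mem_erase.2 ⟨fun e => hi ?_,
            mem_filter.2 ⟨mem_univ _, ⟨_, h4⟩, hP.heavy p hp'⟩⟩, h4⟩)
          rw [← e]
          exact mem_image_of_mem _ hp
      · refine mem_union_left _ (mem_union_left _ ?_)
        by_cases hzA : z ∈ A
        · exact mem_union_right _ (mem_inter.2 ⟨(hP.cov z hzA).resolve_right hzC, hz⟩)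
        · exact mem_union_left _ (mem_filter.2 ⟨hz, hzA, hzC⟩)
    have h5 := (card_le_card h3).trans ((card_union_le _ _).trans (Nat.add_le_add
      ((card_union_le _ _).trans (Nat.add_le_add_right (card_union_le _ _) _))
      (meet hl (rich l t0 C i) i)))
    rw [hl.card] at h5
    obtain ⟨z, hz, z', hz', hne⟩ := one_lt_card.1 (show 1 < Gd.card by omega)
    have a := mem_filter.1 hz
    have a' := mem_filter.1 hz'
    exact ⟨z, z', hne, a.1, a'.1, a.2.1, a'.2.1, a.2.2, a'.2.2⟩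

end Pool.Agent.MP_c9a892_co.H41
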