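import Pool.Agent.MP_c9a892_co.H41.Spec

/-! The potential at the start. -/

set_option autoImplicit false

namespace Pool.Agent.MP_c9a892_co.H41

open Finset
open scoped Classical

namespace InitA

variable {V I : Type} [Fintype V] [DecidableEq V] [Fintype I] [DecidableEq I] {p : Par V I}

theorem s1 (hp : Ok p) : ∑ t : T1 V I, raw p (st0 V I) (.inl t) ≤ 1 := by
  obtain ⟨ν, hν⟩ : ∃ ν, ν = (p.lam ^ p.h)⁻¹ := ⟨_, rfl⟩
  have ν0 : 0 ≤ ν := by
    have := zero_le_one.trans hp.one
    rw [hν]; positivity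
  have h : ∀ x, ∑ S : Finset I, (if S ⊆ p.low x then ν ^ S.card else 0) ≤ Real.exp (ν * p.D) := by
    intro x
    rw [← sum_filter, show univ.filter (· ⊆ p.low x) = (p.low x).powerset by ext; simp]
    have := prod_one_add (f := fun _ => ν) (p.low x)
    simp only [prod_const] at this
    rw [← this, mul_comm, Real.exp_nat_mul]
    exact (pow_le_pow_left₀ (by positivity) (add_comm ν 1 ▸ Real.add_one_le_exp ν) _).trans
      (pow_le_pow_right₀ (Real.one_le_exp ν0) (hp.lowcard x))
  simp only [raw, st0, ← hν, empty_inter, card_empty, pow_zero, mul_one, Fintype.sum_prod_type,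
    ← mul_ite_zero, ← mul_sum]
  refine inv_mul_le_one_of_le₀ ((sum_le_card_nsmul _ _ _ fun x _ => h x).trans_eq ?_) (by positivity)
  rw [nsmul_eq_mul, card_univ]

theorem s3 (hp : Ok p) : ∑ t : T3 p, raw p (st0 V I) (.inr t) ≤ 1 := by
  have := hp.Tpos
  have e : ∀ σ : Fin p.J0 → Option I,
      (univ.biUnion fun k => (σ k).elim (∅ : Finset V) fun _ => ∅) = ∅ := fun σ => by
    ext x
    simp only [mem_biUnion, mem_univ, true_and, notMem_empty, iff_false, not_exists]
    intro k
    cases σ k <;> simp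
  have h : ∀ z : Fin p.J0 → V, ∑ σ : Fin p.J0 → Option I, ∏ k, mo p (st0 V I) (z k) (σ k) =
      p.T ^ p.J0 := fun z => by
    rw [← Fintype.piFinset_univ, ← prod_univ_sum]
    simp [mo, St.mass]
  have e2 : ∀ z σ, raw p (st0 V I) (.inr (z, σ)) = if z ∈ p.Z then
      (p.Z.card * p.T ^ p.J0)⁻¹ * ∏ k, mo p (st0 V I) (z k) (σ k) else 0 := fun z σ => by
    simp only [raw]
    rw [show (st0 V I).cnt = fun _ => ∅ from rfl, e]
    simp
  simp only [Fintype.sum_prod_type, e2, sum_ite_irrel, ← mul_sum, h, sum_const_zero, sum_ite_mem,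
    univ_inter, sum_const, nsmul_eq_mul]
  exact inv_mul_le_one_of_le₀ le_rfl (by positivity)

end InitA

open InitA in
theorem rowInit : InitS := by
  intro V I _ _ _ _ p hp
  have hb : Base p (st0 V I) := by
    constructor <;> simp [st0, St.mass, hp.Tpos.le]
  have h1 : ∑ t, wt p (st0 V I) t ≤ 2 := by
    have e : ∀ t, wt p (st0 V I) t = raw p (st0 V I) t := fun t => if_pos (disjoint_empty_left _)
    simp only [e, Fintype.sum_sum_type]
    linarith [s1 hp, s3 hp]
  have h2 : ∑ z, L p (st0 V I) z ≤ 1 := by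
    simp only [L, st0, St.mass, sum_const_zero, mul_zero, Real.exp_zero, mul_one, sum_const,
      card_univ, nsmul_eq_mul]
    exact mul_inv_le_one
  have h3 : Phi p (st0 V I) ≤ 3 := by
    have := sum_le_sum_of_subset_of_nonneg (subset_univ ((st0 V I).A ∪ (st0 V I).B)ᶜ)
      fun z _ _ => L_nonneg p (st0 V I) z
    rw [Phi]
    linarith
  refine ⟨⟨hb, by linarith⟩, fun x z _ _ _ _ => ?_⟩
  have h4 := (W_le hp hb x).trans h1
  have h5 := (single_le_sum (fun z _ => L_nonneg p (st0 V I) z) (mem_univ z)).trans h2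
  nlinarith [hp.one, hp.two, W_nonneg hp hb x, L_nonneg p (st0 V I) z]

end Pool.Agent.MP_c9a892_co.H41
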