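import Pool.Agent.MP_c9a892_co.H41.Spec

/-!
Row Loop: pairing the lines that exceed the caps.
-/

set_option autoImplicit false

namespace Pool.Agent.MP_c9a892_co.H41

open Finset
open scoped Classical

namespace LoopA

variable {V I : Type} [DecidableEq V] [DecidableEq I]

theorem pi_add {l : I → Finset V} {t0 : ℕ} {A B Big : Finset V} {C Hv C' Hv' : Finset (V × I)}
    {i : I} {z z' : V} (h : PI l t0 A B Big C Hv)
    (e : C' ∪ Hv' = insert (z, i) (insert (z', i) (C ∪ Hv))) (hne : z ≠ z') (h1 : z ∈ l i)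
    (h2 : z' ∈ l i) (h3 : z ∉ A) (h4 : z' ∉ A) (h5 : z ∉ (C ∪ Hv).image Prod.fst)
    (h6 : z' ∉ (C ∪ Hv).image Prod.fst) (two : ∀ j, (C'.filter fun p => p.2 = j).card ≤ 2)
    (heavy : ∀ p ∈ Hv', t0 ≤ (l p.2 ∩ C'.image Prod.fst).card) : PI l t0 A B Big C' Hv' := by
  have hs : C ∪ Hv ⊆ C' ∪ Hv' := e ▸ (subset_insert _ _).trans (subset_insert _ _)
  have hc : ∀ p ∈ C' ∪ Hv', p = (z, i) ∨ p = (z', i) ∨ p ∈ C ∪ Hv := fun p hp => by
    rwa [e, mem_insert, mem_insert] at hp
  have k5 : ∀ q ∈ C ∪ Hv, q.1 ≠ z := fun q hq e' => h5 (mem_image.2 ⟨q, hq, e'⟩)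
  have k6 : ∀ q ∈ C ∪ Hv, q.1 ≠ z' := fun q hq e' => h6 (mem_image.2 ⟨q, hq, e'⟩)
  refine ⟨h.dis, fun x hx => (h.cov x hx).imp_right fun a => image_subset_image hs a, two,
    fun p hp => ?_, fun p hp q hq e' => ?_, fun p hp hd => ?_, heavy⟩
  · rcases hc p hp with rfl | rfl | a
    · exact h1
    · exact h2
    · exact h.mem p a
  · rcases hc p hp with rfl | rfl | a <;> rcases hc q hq with rfl | rfl | b
    · rfl
    · rfl
    · exact absurd e'.symm (k5 q b)
    · rfl
    · rfl
    · exact absurd e'.symm (k6 q b)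
    · exact absurd e' (k5 p a)
    · exact absurd e' (k6 p a)
    · exact h.uniq p a q b e'
  · rcases hc p hp with rfl | rfl | a
    · exact ⟨h3, z', hne.symm, e ▸ mem_insert_of_mem (mem_insert_self _ _)⟩
    · exact ⟨h4, z, hne, e ▸ mem_insert_self _ _⟩
    · obtain ⟨b, w, c, d⟩ := h.pair p a hd
      exact ⟨b, w, c, hs d⟩

theorem lt_add [Fintype I] {P P' : Finset (V × I)} {i : I} {z z' : V}
    (e : P' = insert (z, i) (insert (z', i) P)) (hi : i ∉ P.image Prod.snd) :
    (P'.image Prod.snd)ᶜ.card < (P.image Prod.snd)ᶜ.card := by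
  refine card_lt_card ⟨compl_subset_compl.2 (image_subset_image
    (e ▸ (subset_insert _ _).trans (subset_insert _ _))), fun h => ?_⟩
  exact mem_compl.1 (h (mem_compl.2 hi)) (mem_image.2 ⟨(z, i), e ▸ mem_insert_self _ _, rfl⟩)

end LoopA

open LoopA in
theorem rowLoop : OfLoop := by
  intro hF V I _ _ _ _ l n b t i0 J0 E Z G M hL hn hE hR A B Big C Hv hM hP hC
  induction hk : ((C ∪ Hv).image Prod.snd)ᶜ.card using Nat.strong_induction_on
    generalizing C Hv with
  | _ k ih =>
  subst hk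
  have free := fun i => hF V I l n (b + 1) (t + 1) i0 A B Big C Hv i hL hn hP hC
    (hR A B Big C hM hP.two i)
  by_cases c1 : ∃ i, i ∉ (C ∪ Hv).image Prod.snd ∧ Disjoint B (l i) ∧
      t + 1 ≤ (l i ∩ C.image Prod.fst).card
  · obtain ⟨i, a1, a2, a3⟩ := c1
    obtain ⟨z, z', hne, h1, h2, h3, h4, h5, h6⟩ := free i a1 a2
    have e : C ∪ insert (z, i) (insert (z', i) Hv) = insert (z, i) (insert (z', i) (C ∪ Hv)) := by
      rw [union_insert, union_insert]
    refine ih _ (lt_add e a1) C _ hM (pi_add hP e hne h1 h2 h3 h4 h5 h6 hP.two fun p hp => ?_)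
      (fun j hj => hC j fun h => hj (image_subset_image
        (e ▸ (subset_insert _ _).trans (subset_insert _ _)) h)) rfl
    rcases mem_insert.1 hp with rfl | hp
    · exact a3
    rcases mem_insert.1 hp with rfl | hp
    · exact a3
    · exact hP.heavy p hp
  have c1' : ∀ i, i ∉ (C ∪ Hv).image Prod.snd → Disjoint B (l i) →
      (l i ∩ C.image Prod.fst).card ≤ t := fun i a1 a2 =>
    Nat.le_of_lt_succ (not_le.1 fun a3 => c1 ⟨i, a1, a2, a3⟩)
  by_cases c2 : ∃ i, i ∉ (C ∪ Hv).image Prod.snd ∧ Disjoint B (l i) ∧ b + 1 ≤ (Big ∩ l i).card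
  · obtain ⟨i, a1, a2, a3⟩ := c2
    obtain ⟨z, z', hne, h1, h2, h3, h4, h5, h6⟩ := free i a1 a2
    have e : insert (z, i) (insert (z', i) C) ∪ Hv = insert (z, i) (insert (z', i) (C ∪ Hv)) := by
      rw [insert_union, insert_union]
    have a4 : i ∉ C.image Prod.snd := fun h => a1 (image_subset_image subset_union_left h)
    refine ih _ (lt_add e a1) _ Hv (hE.frz A B Big C i z z' hM a4 a2 a3 h1 h2 h3 h4)
      (pi_add hP e hne h1 h2 h3 h4 h5 h6 (fun j => ?_) fun p hp => (hP.heavy p hp).trans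
        (card_le_card (inter_subset_inter_left (image_subset_image
          ((subset_insert _ _).trans (subset_insert _ _)))))) (fun j hj hd => ?_) rfl
    · by_cases hj : i = j
      · subst hj
        refine le_trans (card_le_card (t := {(z, i), (z', i)}) fun p hp => ?_) card_le_two
        obtain ⟨b1, b2⟩ := mem_filter.1 hp
        rw [mem_insert, mem_insert] at b1
        rw [mem_insert, mem_singleton]
        exact b1.imp_right fun b3 => b3.resolve_right fun b4 => a4 (mem_image.2 ⟨p, b4, b2⟩)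
      · rw [filter_insert, if_neg hj, filter_insert, if_neg hj]
        exact hP.two j
    · have b1 : j ∉ (C ∪ Hv).image Prod.snd := fun h => hj (image_subset_image
        (e ▸ (subset_insert _ _).trans (subset_insert _ _)) h)
      have b2 : j ≠ i := fun h => hj (mem_image.2 ⟨(z, i), e ▸ mem_insert_self _ _, h.symm⟩)
      refine ⟨(hC j b1 hd).1, ?_⟩
      have b3 := c1' j b1 hd
      rw [image_insert, image_insert]
      by_cases b4 : z ∈ l j
      · have b5 : z' ∉ l j := fun b5 => b2 (hL.lin j i z z' hne b4 b5 h1 h2)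
        rw [inter_insert_of_mem b4, inter_insert_of_notMem b5]
        exact (card_insert_le _ _).trans (Nat.succ_le_succ b3)
      · rw [inter_insert_of_notMem b4]
        by_cases b5 : z' ∈ l j
        · rw [inter_insert_of_mem b5]
          exact (card_insert_le _ _).trans (Nat.succ_le_succ b3)
        · rw [inter_insert_of_notMem b5]
          exact b3.trans (Nat.le_succ _)
  · exact ⟨C, Hv, hM, hP, fun i a1 a2 =>
      ⟨Nat.le_of_lt_succ (not_le.1 fun a3 => c2 ⟨i, a1, a2, a3⟩), c1' i a1 a2⟩⟩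

end Pool.Agent.MP_c9a892_co.H41
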