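import Pool.Agent.MP_c9a892_co.H41.Spec

/-!
The number of low lines through a point, and of points at which a line is not low.
-/

set_option autoImplicit false

namespace Pool.Agent.MP_c9a892_co.H41

open Finset
open scoped Classical

namespace LowA

variable {n d : ℕ}

/-- the type with position `i` of `x` and the set `T` of inactive coordinates of that class -/
noncomputable def dec (x : Fin d → Fin n) (p : Fin n × Finset (Fin d)) : Ty n d :=
  fun j => if j ∈ p.2 ∨ ¬ cl (x j) p.1 then .inl (x j) else .inr (decide (x j = p.1))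

theorem dec_eq (τ : Ty n d) (i : Fin n) (hi : i ≠ i.rev) :
    dec (pt τ i) (i, univ.filter fun j => ∃ a, τ j = .inl a ∧ cl a i) = τ := by
  funext j
  simp only [dec, mem_filter, mem_univ, true_and]
  cases h : τ j with
  | inl a =>
    rw [pt_inl h, if_pos]
    by_cases hc : cl a i
    · exact Or.inl ⟨a, rfl, hc⟩
    · exact Or.inr hc
  | inr b =>
    rw [pt_inr h, if_neg]
    · cases b <;> simp [hi.symm]
    · cases b <;> simp [cl_refl, cl_rev]

theorem part1 (m0 : ℕ) (x : Fin d → Fin n) :
    (lowS m0 x).card ≤ n * ∑ k ∈ range (m0 + 1), d.choose k := by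
  have h1 : (lowS m0 x).image Subtype.val ⊆ ((univ : Finset (Fin n)) ×ˢ
      (range (m0 + 1)).biUnion fun k => powersetCard k (univ : Finset (Fin d))).image (dec x) := by
    intro σ hσ
    obtain ⟨τ, hτ, rfl⟩ := mem_image.1 hσ
    obtain ⟨i, rfl, hi, hc⟩ := (mem_filter.1 hτ).2
    refine mem_image.2 ⟨_, mem_product.2 ⟨mem_univ _, ?_⟩, dec_eq τ.1 i hi⟩
    exact mem_biUnion.2 ⟨_, mem_range.2 (Nat.lt_succ_of_le hc),
      mem_powersetCard.2 ⟨subset_univ _, rfl⟩⟩
  rw [← card_image_of_injective _ Subtype.val_injective]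
  refine (card_le_card h1).trans (card_image_le.trans ?_)
  rw [card_product, card_univ, Fintype.card_fin]
  refine Nat.mul_le_mul_left _ (card_biUnion_le.trans (le_of_eq ?_))
  simp only [card_powersetCard, card_univ, Fintype.card_fin]

theorem sum_le (τ : Ty n d) :
    ∑ i : Fin n, (univ.filter fun j => ∃ a, τ j = .inl a ∧ cl a i).card ≤ 2 * d := by
  simp only [card_filter]
  rw [sum_comm]
  refine (sum_le_card_nsmul _ _ 2 fun j _ => ?_).trans (by simp [mul_comm])
  rw [← card_filter]
  cases h : τ j with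
  | inl a =>
    refine (card_le_card (t := {a, a.rev}) fun i hi => ?_).trans card_le_two
    obtain ⟨a', e, hc⟩ := (mem_filter.1 hi).2
    obtain rfl : a = a' := Sum.inl.inj e
    simpa [cl] using cl_symm hc
  | inr b => simp

theorem part2 (m0 : ℕ) (τ : Ln n d) :
    ((ln τ.1).filter fun x => τ ∉ lowS m0 x).card ≤ 2 * d / (m0 + 1) + 1 := by
  set S : Finset (Fin n) := univ.filter fun i =>
    m0 + 1 ≤ (univ.filter fun j => ∃ a, τ.1 j = .inl a ∧ cl a i).card with hS
  have h1 : ((ln τ.1).filter fun x => τ ∉ lowS m0 x) ⊆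
      (S ∪ univ.filter fun i : Fin n => i = i.rev).image (pt τ.1) := by
    intro x hx
    obtain ⟨hx, hx'⟩ := mem_filter.1 hx
    obtain ⟨i, rfl⟩ := mem_ln.1 hx
    refine mem_image_of_mem _ (mem_union.2 ?_)
    by_contra hc
    simp only [hS, mem_filter, mem_univ, true_and, not_or, not_le] at hc
    exact hx' (mem_filter.2 ⟨mem_univ _, i, rfl, hc.2, Nat.le_of_lt_succ hc.1⟩)
  have h2 : (univ.filter fun i : Fin n => i = i.rev).card ≤ 1 := by
    refine card_le_one.2 fun a ha b hb => Fin.ext ?_
    have h3 := congrArg Fin.val (mem_filter.1 ha).2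
    have h4 := congrArg Fin.val (mem_filter.1 hb).2
    rw [Fin.val_rev] at h3 h4
    have := a.2
    have := b.2
    omega
  have h3 : S.card ≤ 2 * d / (m0 + 1) := by
    rw [Nat.le_div_iff_mul_le (Nat.succ_pos _)]
    refine le_trans ?_ (sum_le τ.1)
    refine le_trans ?_ (sum_le_sum_of_subset (subset_univ S))
    exact card_nsmul_le_sum S _ _ fun i hi => (mem_filter.1 hi).2
  exact (card_le_card h1).trans (card_image_le.trans ((card_union_le _ _).trans (add_le_add h3 h2)))

end LowA

theorem rowLow : LowS := fun _ _ m0 => ⟨LowA.part1 m0, LowA.part2 m0⟩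

end Pool.Agent.MP_c9a892_co.H41
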