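import Pool.Agent.MP_c9a892_co.H41.Spec

/-!
Row Num: the numerical inequalities below the threshold.
-/

set_option autoImplicit false

namespace Pool.Agent.MP_c9a892_co.H41

open Finset Filter
open scoped Classical

namespace NumA

theorem le_two_pow {A N : ℕ} {t : ℝ} (h : (A : ℝ) ≤ Real.exp t) (ht : t ≤ N * Real.log 2) :
    A ≤ 2 ^ N := by
  have h1 : Real.exp (N * Real.log 2) = 2 ^ N := by
    rw [Real.exp_nat_mul, Real.exp_log two_pos]
  have h2 : (A : ℝ) ≤ 2 ^ N := h1 ▸ h.trans (Real.exp_le_exp.2 ht)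
  exact_mod_cast h2

theorem sum_choose {n : ℕ} (hn : 1 ≤ n) (d m : ℕ) :
    ((∑ k ∈ range (m + 1), d.choose k : ℕ) : ℝ) ≤ Real.exp (m * Real.log n + d * (n : ℝ)⁻¹) := by
  have h1 : (1 : ℝ) ≤ n := by exact_mod_cast hn
  have h0 : (0 : ℝ) < n := by linarith
  have h2 : ∑ k ∈ range (m + 1), ((n : ℝ)⁻¹) ^ k * (d.choose k : ℝ) ≤ ((n : ℝ)⁻¹ + 1) ^ d := by
    rw [add_pow]
    simp only [one_pow, mul_one]
    refine (sum_le_sum_of_subset_of_nonneg (range_mono (by omega : m + 1 ≤ m + d + 1))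
      fun k _ _ => by positivity).trans (le_of_eq ?_)
    refine (sum_subset (range_mono (by omega : d + 1 ≤ m + d + 1)) fun k _ hk => ?_).symm
    rw [Nat.choose_eq_zero_of_lt (by simpa using hk)]
    simp
  have h3 : ((n : ℝ)⁻¹ + 1) ^ d ≤ Real.exp (d * (n : ℝ)⁻¹) := by
    rw [Real.exp_nat_mul]
    exact pow_le_pow_left₀ (by positivity) (Real.add_one_le_exp _) _
  rw [Real.exp_add, Real.exp_nat_mul, Real.exp_log h0]
  refine le_trans ?_ (mul_le_mul_of_nonneg_left (h2.trans h3) (by positivity))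
  rw [mul_sum]
  push_cast
  refine sum_le_sum fun k hk => ?_
  have h4 : (n : ℝ) ^ k ≤ (n : ℝ) ^ m := pow_le_pow_right₀ h1 (by simpa [Nat.lt_succ_iff] using hk)
  have h5 : 1 ≤ (n : ℝ) ^ m * ((n : ℝ)⁻¹) ^ k := by
    rw [inv_pow, ← div_eq_mul_inv, le_div_iff₀ (by positivity), one_mul]
    exact h4
  rw [← mul_assoc]
  exact le_mul_of_one_le_left (by positivity) h5

theorem ev_log (c : ℝ) : ∀ᶠ n : ℕ in atTop, c ≤ Real.log n :=
  (Real.tendsto_log_atTop.comp tendsto_natCast_atTop_atTop).eventually_ge_atTop c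

theorem ev_small {c : ℝ} (hc : 0 < c) : ∀ᶠ n : ℕ in atTop, Real.log n ≤ c * n := by
  have h := (Real.isLittleO_log_id_atTop.comp_tendsto
    (tendsto_natCast_atTop_atTop (R := ℝ))).bound hc
  filter_upwards [h] with n hn
  simp only [Function.comp, id, Real.norm_eq_abs, Nat.abs_cast] at hn
  exact (le_abs_self _).trans hn

end NumA

theorem rowNum : NumS := by
  intro ε hε
  have he0 : 0 < min ε (1 / 2) := lt_min hε (by norm_num)
  have he1 : min ε (1 / 2) ≤ 1 / 2 := min_le_right _ _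
  have he2 : min ε (1 / 2) ≤ ε := min_le_left _ _
  generalize min ε (1 / 2) = e at he0 he1 he2
  have hq : 24 ≤ (⌈24 / e⌉₊ : ℝ) * e := by
    rw [← div_le_iff₀ he0]
    exact Nat.le_ceil _
  generalize ⌈24 / e⌉₊ = q at hq
  have hq0 : (0 : ℝ) ≤ q := by positivity
  have hq8 : (8 : ℝ) ≤ q := by nlinarith
  refine ⟨q, by exact_mod_cast hq8, fun i0 => ?_⟩
  have l2 : 0 < Real.log 2 := Real.log_pos one_lt_two
  have l3 : 0 < Real.log 3 := Real.log_pos (by norm_num)
  obtain ⟨n0, hn0⟩ := eventually_atTop.1 ((NumA.ev_log ((i0 + 1) * Real.log 3)).and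
    ((NumA.ev_log (6 / e)).and ((NumA.ev_small (c := e / 12 * Real.log 2) (by positivity)).and
      ((NumA.ev_small (c := Real.log 2 / 2 / (i0 + 1)) (by positivity)).and
        ((tendsto_natCast_atTop_atTop (R := ℝ)).eventually_ge_atTop (6 / e))))))
  refine ⟨n0, fun n hn d hd => ?_⟩
  obtain ⟨a1, a2, a3, a4, a5⟩ := hn0 n hn
  have h6 : 12 ≤ 6 / e := by
    rw [le_div_iff₀ he0]
    linarith
  have hn1 : (1 : ℝ) ≤ n := by linarith
  have hnp : (0 : ℝ) < n := by linarith
  have hL : 0 < Real.log n := by linarith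
  have hexp : (n : ℝ) = Real.exp (Real.log n) := (Real.exp_log hnp).symm
  rw [div_le_iff₀ he0] at a2 a5
  have hd0 : (0 : ℝ) ≤ d := by positivity
  have hd1 : d * Real.log n ≤ (1 - e) * (Real.log 2 / 2 * n ^ 2) := by
    rw [← le_div_iff₀ hL, mul_div_assoc]
    exact hd.trans (mul_le_mul_of_nonneg_right (by linarith) (by positivity))
  have hW : 0 < Real.log 2 / 2 * n ^ 2 := by positivity
  have hd2 : d * Real.log n ≤ Real.log 2 / 2 * n ^ 2 := by nlinarith
  have hx : 0 ≤ (1 - e / 2) * n * Real.log 2 / Real.log n :=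
    div_nonneg (mul_nonneg (mul_nonneg (by linarith) hnp.le) l2.le) hL.le
  have m1 := Nat.floor_le hx
  have m2 := Nat.lt_floor_add_one ((1 - e / 2) * n * Real.log 2 / Real.log n)
  generalize ⌊(1 - e / 2) * n * Real.log 2 / Real.log n⌋₊ = m at m1 m2
  rw [le_div_iff₀ hL] at m1
  rw [div_lt_iff₀ hL] at m2
  refine ⟨m, NumA.le_two_pow (t := d * Real.log n) (le_of_eq ?_) ?_,
    NumA.le_two_pow (t := ((i0 + 1 : ℕ) : ℝ) * (Real.log n + d * Real.log 3)) (le_of_eq ?_) ?_,
    NumA.le_two_pow (t := q * (Real.log n + (m * Real.log n + d * (n : ℝ)⁻¹)) +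
      ((8 * n : ℕ) : ℝ) * Real.log 2) ?_ ?_, ?_⟩
  · rw [Real.exp_nat_mul, ← hexp]
    push_cast
    rfl
  · push_cast
    linarith
  · rw [Real.exp_nat_mul, Real.exp_add, Real.exp_nat_mul, ← hexp, Real.exp_log three_pos]
    push_cast
    rfl
  · push_cast
    have b1 : (i0 + 1) * Real.log n ≤ Real.log 2 / 2 * n := by
      rw [div_mul_eq_mul_div, le_div_iff₀ (by positivity)] at a4
      linarith
    have b2 : Real.log 2 / 2 * n ≤ Real.log 2 / 2 * n ^ 2 :=
      mul_le_mul_of_nonneg_left (by nlinarith) (by positivity)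
    have b3 := mul_le_mul_of_nonneg_left a1 hd0
    nlinarith
  · rw [Real.exp_add, Real.exp_nat_mul, Real.exp_nat_mul, Real.exp_log two_pos, Real.exp_add,
      ← hexp, Nat.cast_mul, Nat.cast_pow, Nat.cast_pow, Nat.cast_mul, Nat.cast_ofNat]
    refine mul_le_mul_of_nonneg_right (pow_le_pow_left₀ (by positivity) ?_ _) (by positivity)
    exact mul_le_mul_of_nonneg_left (NumA.sum_choose (by exact_mod_cast hn1) d m) hnp.le
  · push_cast
    have b1 : d * (n : ℝ)⁻¹ ≤ e / 12 * Real.log 2 * n := by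
      rw [← div_eq_mul_inv, div_le_iff₀ hnp]
      have b2 := mul_le_mul_of_nonneg_left a2 hd0
      have b3 := mul_le_mul_of_nonneg_right hd2 he0.le
      nlinarith
    have b4 : Real.log n + (m * Real.log n + d * (n : ℝ)⁻¹) ≤ (1 - e / 3) * (n * Real.log 2) := by
      nlinarith
    have b5 := mul_le_mul_of_nonneg_left b4 hq0
    have b6 := mul_le_mul_of_nonneg_right hq (mul_pos hnp l2).le
    nlinarith
  · have b1 : ((2 * d / (m + 1) : ℕ) : ℝ) ≤ (1 - e / 2) * n := by
      refine Nat.cast_div_le.trans ?_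
      push_cast
      rw [div_le_iff₀ (by positivity)]
      refine le_of_mul_le_mul_right ?_ hL
      have b2 := mul_le_mul_of_nonneg_left m2.le (mul_nonneg (by linarith : 0 ≤ 1 - e / 2) hnp.le)
      have b3 : 0 ≤ e ^ 2 * (Real.log 2 * n ^ 2) := by positivity
      nlinarith
    have b4 : (q : ℝ) * (((2 * d / (m + 1) : ℕ) : ℝ) + 1) + 8 * n ≤ q * n := by
      have b5 := mul_le_mul_of_nonneg_left b1 hq0
      have b6 := mul_le_mul_of_nonneg_right hq hnp.le
      have b7 := mul_le_mul_of_nonneg_left a5 hq0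
      nlinarith
    exact_mod_cast b4

end Pool.Agent.MP_c9a892_co.H41
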