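import Pool.Agent.MP_c9a892_co.H41.Spec

/-!
Row Ori: oriented lines are lines, two points lie on at most `n ^ 2` oriented lines and a point
lies on at most `n * 3 ^ d` oriented lines.
-/

set_option autoImplicit false

namespace Pool.Agent.MP_c9a892_co.H41

open Finset
open scoped Classical

namespace OriA

theorem isLine {n d : ℕ} (τ : Ty n d) (h : ∃ j, (τ j).isRight) : IsLine (pt τ) := by
  refine ⟨pt_inj h, fun j => ?_⟩
  rcases hj : τ j with c | b
  · exact Or.inl ⟨c, fun i => pt_inl hj i⟩
  · cases b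
    · exact Or.inr (Or.inr fun i => by simpa using pt_inr hj i)
    · exact Or.inr (Or.inl fun i => by simpa using pt_inr hj i)

theorem card_ln {n d : ℕ} (τ : Ty n d) (h : ∃ j, (τ j).isRight) : (ln τ).card = n := by
  rw [ln, card_image_of_injective _ (pt_inj h)]
  simp

/-- two distinct positions determine the type -/
theorem eq_of_two {n d : ℕ} {τ τ' : Ty n d} {i i' : Fin n} (hi : i ≠ i')
    (h : pt τ i = pt τ' i) (h' : pt τ i' = pt τ' i') : τ = τ' := by
  funext j
  have e := congrFun h j
  have e' := congrFun h' j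
  rcases hj : τ j with c | b <;> rcases hj' : τ' j with c' | b'
  · rw [pt_inl hj, pt_inl hj'] at e
    rw [e]
  · rw [pt_inl hj, pt_inr hj'] at e e'
    exfalso
    apply hi
    have := e.symm.trans e'
    cases b' <;> simpa using this
  · rw [pt_inr hj, pt_inl hj'] at e e'
    exfalso
    apply hi
    have := e.trans e'.symm
    cases b <;> simpa using this
  · rw [pt_inr hj, pt_inr hj'] at e e'
    have key : ∀ a a' : Fin n, a = a.rev → a' = a'.rev → a = a' := by
      intro a a' ha ha'
      have h1 := congrArg Fin.val ha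
      have h2 := congrArg Fin.val ha'
      rw [Fin.val_rev] at h1 h2
      have := a.2
      have := a'.2
      apply Fin.ext
      omega
    cases b <;> cases b'
    · rfl
    · exact absurd (key i i' (by simpa using e.symm) (by simpa using e'.symm)) hi
    · exact absurd (key i i' (by simpa using e) (by simpa using e')) hi
    · rfl

theorem pair {n d : ℕ} (x y : Fin d → Fin n) (hxy : x ≠ y) :
    (univ.filter fun τ : Ty n d => x ∈ ln τ ∧ y ∈ ln τ).card ≤ n ^ 2 := by
  have hsub : (univ.filter fun τ : Ty n d => x ∈ ln τ ∧ y ∈ ln τ) ⊆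
      (univ : Finset (Fin n × Fin n)).biUnion fun p =>
        univ.filter fun τ : Ty n d => pt τ p.1 = x ∧ pt τ p.2 = y := by
    intro τ hτ
    obtain ⟨h1, h2⟩ := (mem_filter.1 hτ).2
    obtain ⟨i, hi⟩ := mem_ln.1 h1
    obtain ⟨i', hi'⟩ := mem_ln.1 h2
    exact mem_biUnion.2 ⟨(i, i'), mem_univ _, mem_filter.2 ⟨mem_univ _, hi, hi'⟩⟩
  refine (card_le_card hsub).trans (card_biUnion_le.trans ?_)
  have hone : ∀ p ∈ (univ : Finset (Fin n × Fin n)),
      (univ.filter fun τ : Ty n d => pt τ p.1 = x ∧ pt τ p.2 = y).card ≤ 1 := by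
    intro p _
    refine card_le_one.2 fun τ hτ τ' hτ' => ?_
    obtain ⟨h1, h2⟩ := (mem_filter.1 hτ).2
    obtain ⟨h1', h2'⟩ := (mem_filter.1 hτ').2
    have hne : p.1 ≠ p.2 := fun e => hxy (by rw [← h1, ← h2, e])
    exact eq_of_two hne (h1.trans h1'.symm) (h2.trans h2'.symm)
  refine (sum_le_sum hone).trans ?_
  simp [sq]

theorem deg {n d : ℕ} (x : Fin d → Fin n) :
    (univ.filter fun τ : Ty n d => x ∈ ln τ).card ≤ n * 3 ^ d := by
  have hsub : (univ.filter fun τ : Ty n d => x ∈ ln τ) ⊆
      (univ : Finset (Fin n)).biUnion fun i => univ.filter fun τ : Ty n d => pt τ i = x := by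
    intro τ hτ
    obtain ⟨i, hi⟩ := mem_ln.1 (mem_filter.1 hτ).2
    exact mem_biUnion.2 ⟨i, mem_univ _, mem_filter.2 ⟨mem_univ _, hi⟩⟩
  refine (card_le_card hsub).trans (card_biUnion_le.trans ?_)
  have hone : ∀ i ∈ (univ : Finset (Fin n)),
      (univ.filter fun τ : Ty n d => pt τ i = x).card ≤ 3 ^ d := by
    intro i _
    have hc : (univ : Finset (Fin d → Option Bool)).card = 3 ^ d := by simp
    rw [← hc]
    refine card_le_card_of_injOn (fun τ j => (τ j).getRight?) (fun _ _ => mem_coe.2 (mem_univ _)) ?_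
    intro τ hτ τ' hτ' e
    have h1 := (mem_filter.1 (mem_coe.1 hτ)).2
    have h2 := (mem_filter.1 (mem_coe.1 hτ')).2
    funext j
    have ej := congrFun e j
    have hx := congrFun (h1.trans h2.symm) j
    rcases hj : τ j with c | b <;> rcases hj' : τ' j with c' | b'
    · rw [pt_inl hj, pt_inl hj'] at hx
      rw [hx]
    · simp [hj, hj'] at ej
    · simp [hj, hj'] at ej
    · simp only [hj, hj', Sum.getRight?_inr, Option.some.injEq] at ej
      rw [ej]
  refine (sum_le_sum hone).trans ?_
  simp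

end OriA

theorem rowOri : OriS := fun _ _ =>
  ⟨fun τ h => ⟨OriA.isLine τ h, OriA.card_ln τ h⟩, OriA.pair, OriA.deg⟩

end Pool.Agent.MP_c9a892_co.H41
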