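import Pool.Agent.MP_c9a892_co.H41.Spec

/-! The choice of the integer parameters. -/

set_option autoImplicit false

namespace Pool.Agent.MP_c9a892_co.H41

open Finset
open scoped Classical

theorem rowParA : ParAS := by
  intro q hq
  refine ⟨q * (2 * (800 * q ^ 5) + 36 * q + 2), fun n hn => ?_⟩
  have hq0 : 0 < q := by omega
  obtain ⟨s, hs⟩ : ∃ s, s = n / q := ⟨_, rfl⟩
  obtain ⟨i0, hi⟩ : ∃ i0, i0 = 800 * q ^ 5 := ⟨_, rfl⟩
  rw [← hi] at hn
  have h1 : 2 * i0 + 36 * q + 2 ≤ s := by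
    rw [hs, Nat.le_div_iff_mul_le hq0, mul_comm]
    exact hn
  have h2 : q * s ≤ n := by
    rw [hs]
    exact Nat.mul_div_le n q
  have h3 : n ≤ 2 * (q * s) := by
    have h4 := Nat.lt_mul_div_succ n hq0
    rw [← hs, mul_add, mul_one] at h4
    have h5 : q * 1 ≤ q * s := Nat.mul_le_mul_left q (by omega)
    omega
  have h4 : 8 * s ≤ q * s := Nat.mul_le_mul_right s hq
  have hs0 : 0 < s := by omega
  have hn0 : 0 < n := by omega
  obtain ⟨t, rfl⟩ : ∃ t, s = t + 1 := ⟨s - 1, by omega⟩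
  obtain ⟨b, hb⟩ : ∃ b, n = b + 1 + (t + 1) + i0 + 1 := ⟨n - (t + 1) - i0 - 2, by omega⟩
  refine ⟨100 * q ^ 4 * n, t + 1, i0, b, t, hi, ?_, ?_, ?_, ?_, hb.ge, ?_⟩
  · have h5 : 36 * q * (t + 1) ≤ (t + 1) * (t + 1) := Nat.mul_le_mul_right _ (by omega)
    rw [sq]
    linarith
  · generalize t + 1 = s at *
    have h5 : q ^ 2 ≤ q ^ 4 := Nat.pow_le_pow_right hq0 (by norm_num)
    have h6 : 0 < q ^ 4 * (n * s) := by positivity
    calc 2 * (q * n * n) ≤ 2 * (q * n * (2 * (q * s))) := by gcongr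
      _ = 4 * (q ^ 2 * (n * s)) := by ring
      _ ≤ 4 * (q ^ 4 * (n * s)) := by gcongr
      _ < 100 * (q ^ 4 * (n * s)) := by omega
      _ = _ := by ring
  · generalize t + 1 = s at *
    have h5 : q ^ 7 ≤ q ^ 8 := Nat.pow_le_pow_right hq0 (by norm_num)
    have h6 : 0 < q ^ 8 * (n ^ 2 * s ^ 4) := by positivity
    calc 4 * 128 * (q * n * n) ^ 3 = 512 * (q ^ 3 * n ^ 2 * n ^ 4) := by ring
      _ ≤ 512 * (q ^ 3 * n ^ 2 * (2 * (q * s)) ^ 4) := by gcongr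
      _ = 8192 * (q ^ 7 * (n ^ 2 * s ^ 4)) := by ring
      _ ≤ 8192 * (q ^ 8 * (n ^ 2 * s ^ 4)) := by gcongr
      _ < 10000 * (q ^ 8 * (n ^ 2 * s ^ 4)) := by omega
      _ = _ := by ring
  · generalize t + 1 = s at *
    have h5 : q ^ 4 * n ≤ q ^ 4 * (2 * (q * s)) := Nat.mul_le_mul_left _ h3
    have h6 : i0 * s = 400 * (q ^ 4 * (2 * (q * s))) := by
      rw [hi]
      ring
    have h7 : i0 * (2 * i0) ≤ i0 * s := Nat.mul_le_mul_left _ (by omega)
    nlinarith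
  · have h5 : q * (i0 + 1) ≤ q * (t + 1) := Nat.mul_le_mul_left _ (by omega)
    have h6 : q * n = q * (b + 1) + q * (t + 1) + q * (i0 + 1) := by
      rw [hb]
      ring
    omega

end Pool.Agent.MP_c9a892_co.H41
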