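import Pool.Agent.MP_c9a892_co.H41.Spec

/-!
Row ParB: the real parameters of the potential.
-/

set_option autoImplicit false

namespace Pool.Agent.MP_c9a892_co.H41

open Finset Filter Topology
open scoped Classical

namespace ParBA

theorem ev_le (c : ℝ) (k : ℕ) : ∀ᶠ n : ℕ in atTop, c * (n : ℝ) ^ k ≤ 2 ^ n := by
  have h := (tendsto_pow_const_div_const_pow_of_one_lt k (one_lt_two (α := ℝ))).const_mul c
  rw [mul_zero] at h
  filter_upwards [h.eventually_le_const one_pos] with n hn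
  rwa [← mul_div_assoc, div_le_one (by positivity)] at hn

theorem log_bd {n N : ℕ} (hn : 2 ≤ n) (h1 : 1 ≤ N) (h2 : N ≤ 2 ^ n ^ 2) :
    1 ≤ Real.log (6 * N) ∧ Real.log (6 * N) ≤ 2 * (n : ℝ) ^ 2 := by
  have h1' : (1 : ℝ) ≤ N := by exact_mod_cast h1
  have h2' : (N : ℝ) ≤ 2 ^ n ^ 2 := by exact_mod_cast h2
  have hn' : (2 : ℝ) ≤ n := by exact_mod_cast hn
  constructor
  · rw [Real.le_log_iff_exp_le (by positivity)]
    linarith [Real.exp_one_lt_d9]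
  · have h3 : Real.log (6 * N) ≤ Real.log (2 ^ (n ^ 2 + 3)) :=
      Real.log_le_log (by positivity) (by rw [pow_add]; linarith)
    rw [Real.log_pow] at h3
    have h4 : Real.log 2 ≤ 1 := by linarith [Real.log_two_lt_d9]
    have h5 := mul_le_of_le_one_right (a := ((n ^ 2 + 3 : ℕ) : ℝ)) (by positivity) h4
    push_cast at h3 h5
    nlinarith

end ParBA

open ParBA

theorem rowParB : ParBS := by
  intro q i0 hq
  obtain ⟨k, rfl⟩ := Nat.exists_eq_add_of_le' hq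
  obtain ⟨x, hx1, hxq⟩ : ∃ x : ℝ, 1 < x ∧ x ^ (k + 8) = 2 :=
    ⟨2 ^ (((k + 8 : ℕ) : ℝ)⁻¹), Real.one_lt_rpow one_lt_two (by positivity),
      Real.rpow_inv_natCast_pow zero_le_two (by omega)⟩
  have hx0 : 0 < x := by linarith
  set lam := x ^ (k + 7) with hlam
  have hl1 : 1 ≤ lam := one_le_pow₀ hx1.le
  have hl2 : lam < 2 := by rw [← hxq]; exact pow_lt_pow_right₀ hx1 (by omega)
  obtain ⟨κ, hκ, hκe⟩ : ∃ κ : ℝ, 0 < κ ∧ 2 - lam = κ := ⟨_, by linarith, rfl⟩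
  obtain ⟨n0, hn0⟩ := eventually_atTop.1 ((ev_le 6 i0).and
    ((ev_le ((64 * i0 / κ) ^ (k + 8)) (6 * (k + 8))).and (eventually_ge_atTop 2)))
  refine ⟨n0, fun n hn N Dm D h b r hN1 hN hDm hD hh hb => ?_⟩
  obtain ⟨e1, e2, hn2⟩ := hn0 n hn
  obtain ⟨hL1, hL2⟩ := log_bd hn2 hN1 hN
  set L := Real.log (6 * N)
  have hn0' : (0 : ℝ) < n := by exact_mod_cast (by omega : 0 < n)
  set u := x ^ (k * n) with hu
  have hu0 : 0 < u := by positivity
  have huq : u ^ (k + 8) = 2 ^ (k * n) := by rw [hu, ← pow_mul, mul_comm, pow_mul, hxq]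
  have hlh : lam ^ h ≤ u := by
    rw [hlam, ← pow_mul]
    exact pow_le_pow_right₀ hx1.le (by nlinarith)
  have hDu : (D : ℝ) ≤ u := by
    rw [← pow_le_pow_iff_left₀ (by positivity) hu0.le (by omega : k + 8 ≠ 0), huq]
    rw [add_mul, pow_add 2] at hD
    exact_mod_cast Nat.le_of_mul_le_mul_right hD (by positivity)
  obtain ⟨M, hMe, hM0, hM⟩ : ∃ M, lam * (2 * lam ^ h * L + 2 * D) = M ∧ 0 < M ∧
      M ≤ 16 * u * n ^ 2 := by
    refine ⟨_, rfl, by positivity, ?_⟩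
    calc lam * (2 * lam ^ h * L + 2 * D) ≤ 2 * (2 * u * L + 2 * (u * L)) := by
          gcongr
          nlinarith
      _ = 8 * u * L := by ring
      _ ≤ 8 * u * (2 * n ^ 2) := by gcongr
      _ = _ := by ring
  refine ⟨lam, κ / (2 * n * M), 2 * n * M * L / κ, hl1, hl2.le, by positivity, ?_, by positivity,
    le_of_eq (by field_simp), ?_⟩
  · rw [hMe, hκe]; exact le_of_eq (by field_simp)
  set T := 2 * n * M * L / κ with hT
  have hT1 : (i0 * n : ℝ) * T ≤ 64 * i0 / κ * n ^ 6 * u := by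
    calc (i0 * n : ℝ) * T ≤ i0 * n * (2 * n * (16 * u * n ^ 2) * (2 * n ^ 2) / κ) := by
          rw [hT]; gcongr
      _ = _ := by ring
  have hT2 : ((i0 * n : ℝ) * T) ^ ((k + 8) * n) ≤ 2 ^ ((k + 1) * n ^ 2) := by
    calc ((i0 * n : ℝ) * T) ^ ((k + 8) * n) ≤ (64 * i0 / κ * n ^ 6 * u) ^ ((k + 8) * n) := by
          gcongr
      _ = ((64 * i0 / κ) ^ (k + 8) * n ^ (6 * (k + 8)) * 2 ^ (k * n)) ^ n := by
          rw [pow_mul, mul_pow _ u, huq, mul_pow _ ((n : ℝ) ^ 6), ← pow_mul (n : ℝ)]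
      _ ≤ (2 ^ n * 2 ^ (k * n)) ^ n := by gcongr
      _ = _ := by rw [← pow_add, ← pow_mul]; congr 1; ring
  have e3 : (6 : ℝ) * n ^ i0 ≤ 2 ^ n ^ 2 := e1.trans (pow_le_pow_right₀ one_le_two (by nlinarith))
  have hN' : (N : ℝ) ≤ 2 ^ n ^ 2 := by exact_mod_cast hN
  have hDm' : (Dm : ℝ) ^ (i0 + 1) ≤ 2 ^ n ^ 2 := by exact_mod_cast hDm
  calc _ = N * Dm ^ (i0 + 1) * (6 * n ^ i0) * ((i0 * n : ℝ) * T) ^ ((k + 8) * n) *
        lam ^ ((k + 8) * n * r) := by push_cast; simp only [mul_pow]; ring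
    _ ≤ 2 ^ n ^ 2 * 2 ^ n ^ 2 * 2 ^ n ^ 2 * 2 ^ ((k + 1) * n ^ 2) * lam ^ ((k + 8) * n * r) := by
        gcongr
    _ = x ^ ((k + 8) * ((k + 4) * n ^ 2)) * lam ^ ((k + 8) * n * r) := by
        rw [pow_mul x, hxq]; ring
    _ < lam ^ ((k + 5) * n ^ 2) * lam ^ ((k + 8) * n * r) := by
        refine mul_lt_mul_of_pos_right ?_ (by positivity)
        rw [hlam, ← pow_mul]
        exact pow_lt_pow_right₀ hx1 (by nlinarith [pow_pos (by omega : 0 < n) 2])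
    _ ≤ _ := by
        rw [← pow_add]
        exact pow_le_pow_right₀ hl1 (by nlinarith [Nat.mul_le_mul_left n hb])

end Pool.Agent.MP_c9a892_co.H41
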