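import Pool.Agent.MP_c9a892_co.H41.Spec

/-!
Row Rich: few lines are rich in a given set of points.
-/

set_option autoImplicit false

namespace Pool.Agent.MP_c9a892_co.H41

open Finset
open scoped Classical

namespace RichA

variable {V I : Type} [DecidableEq V]
  {l : I → Finset V} {n : ℕ} {cen : V → I → Prop} {G : V → V → V → Prop} {c a r : ℕ}
  {U : Finset V} {R : Finset I}

theorem swap {A B : Type} (s : Finset A) (t : Finset B) (p : A → B → Prop)
    [∀ x y, Decidable (p x y)] :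
    ∑ x ∈ s, (t.filter fun y => p x y).card = ∑ y ∈ t, (s.filter fun x => p x y).card := by
  simp only [card_filter]
  exact sum_comm

theorem low (hT : Two l cen G c a) (hR : ∀ i ∈ R, r < (l i ∩ U).card) :
    R.card * r ≤ ∑ w ∈ U, (R.filter fun i => w ∈ l i ∧ ¬ cen w i).card := by
  rw [swap U R fun w i => w ∈ l i ∧ ¬ cen w i, ← smul_eq_mul]
  refine card_nsmul_le_sum _ _ _ fun i hi => ?_
  have h1 := hR i hi
  have h2 := card_filter_add_card_filter_not (s := l i ∩ U) fun w => cen w i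
  have h3 : ((l i ∩ U).filter fun w => cen w i).card ≤ 1 := card_le_one.2 fun x hx y hy => by
    simp only [mem_filter, mem_inter] at hx hy
    exact hT.one i x y hx.1.1 hy.1.1 hx.2 hy.2
  have h4 : ((l i ∩ U).filter fun w => ¬ cen w i).card ≤
      (U.filter fun w => w ∈ l i ∧ ¬ cen w i).card := card_le_card fun x hx => by
    simp only [mem_filter, mem_inter] at hx ⊢
    exact ⟨hx.1.2, hx.1.1, hx.2⟩
  omega

theorem paths (hL : Lin l n) (hT : Two l cen G c a) (ha : 2 * a ≤ r ^ 2)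
    (hR : ∀ i ∈ R, r < (l i ∩ U).card) (w : V) :
    (R.filter fun i => w ∈ l i ∧ ¬ cen w i).offDiag.card * r ^ 2 ≤
      2 * ((U ×ˢ U).filter fun q => G q.1 w q.2).card := by
  set D := (R.filter fun i => w ∈ l i ∧ ¬ cen w i).offDiag with hD
  let P : I × I → Finset (V × V) := fun p =>
    ((l p.1 ∩ U) ×ˢ (l p.2 ∩ U)).filter fun q => G q.1 w q.2
  have h1 : ∀ p ∈ D, r ^ 2 ≤ 2 * (P p).card := by
    intro p hp
    simp only [hD, mem_offDiag, mem_filter] at hp
    obtain ⟨⟨a1, a2, a3⟩, ⟨b1, b2, b3⟩, hne⟩ := hp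
    obtain ⟨S, hS, hG⟩ := hT.most _ _ w hne a2 b2 a3 b3
    have h2 : (l p.1 ∩ U) ×ˢ (l p.2 ∩ U) ⊆ P p ∪ S := fun q hq => by
      by_cases h : q ∈ S
      · exact mem_union_right _ h
      · refine mem_union_left _ (mem_filter.2 ⟨hq, ?_⟩)
        simp only [mem_product, mem_inter] at hq
        exact hG _ hq.1.1 _ hq.2.1 h
    have h3 := (card_le_card h2).trans (card_union_le _ _)
    rw [card_product] at h3
    have h4 : r * r ≤ (l p.1 ∩ U).card * (l p.2 ∩ U).card :=
      Nat.mul_le_mul (hR _ a1).le (hR _ b1).le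
    rw [sq] at ha ⊢
    omega
  have h2 : (D : Set (I × I)).PairwiseDisjoint P := by
    intro p hp p' hp' hne
    refine disjoint_left.2 fun q hq hq' => hne ?_
    simp only [hD, coe_offDiag, coe_filter, Set.mem_offDiag, Set.mem_ofPred_eq] at hp hp'
    simp only [P, mem_filter, mem_product, mem_inter] at hq hq'
    obtain ⟨e1, e2⟩ := hT.ne _ _ _ hq.2
    exact Prod.ext (hL.lin _ _ _ _ e1 hq.1.1.1 hp.1.2.1 hq'.1.1.1 hp'.1.2.1)
      (hL.lin _ _ _ _ e2 hq.1.2.1 hp.2.1.2.1 hq'.1.2.1 hp'.2.1.2.1)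
  have h3 : (D.biUnion P).card ≤ ((U ×ˢ U).filter fun q => G q.1 w q.2).card :=
    card_le_card (biUnion_subset.2 fun p _ q hq => by
      simp only [P, mem_filter, mem_product, mem_inter] at hq ⊢
      exact ⟨⟨hq.1.1.2, hq.1.2.2⟩, hq.2⟩)
  rw [card_biUnion h2] at h3
  have h4 := card_nsmul_le_sum D _ _ h1
  rw [smul_eq_mul, ← mul_sum] at h4
  omega

omit [DecidableEq V] in
theorem up (hT : Two l cen G c a) :
    ∑ w ∈ U, ((U ×ˢ U).filter fun q => G q.1 w q.2).card ≤ U.card * U.card * c := by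
  rw [swap U (U ×ˢ U) fun w q => G q.1 w q.2, ← card_product, ← smul_eq_mul]
  refine sum_le_card_nsmul _ _ _ fun q _ => ?_
  obtain ⟨S, hS, hG⟩ := hT.few q.1 q.2
  exact (card_le_card fun w hw => hG w (mem_filter.1 hw).2).trans hS

end RichA

theorem rowRich : RichS := by
  intro V I _ _ _ _ l n cen G c a r U R hL hT ha hR
  have h1 := RichA.low hT hR
  have h2 := sum_le_sum fun w (_ : w ∈ U) => RichA.paths hL hT ha hR w
  have h3 := RichA.up (U := U) hT
  have h4 := sq_sum_le_card_mul_sum_sq (s := U)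
    (f := fun w => (R.filter fun i => w ∈ l i ∧ ¬ cen w i).card)
  have h5 : ∑ w ∈ U, (R.filter fun i => w ∈ l i ∧ ¬ cen w i).card ^ 2 =
      ∑ w ∈ U, (R.filter fun i => w ∈ l i ∧ ¬ cen w i).offDiag.card +
        ∑ w ∈ U, (R.filter fun i => w ∈ l i ∧ ¬ cen w i).card := by
    rw [← sum_add_distrib]
    refine sum_congr rfl fun w _ => ?_
    rw [offDiag_card, sq]
    exact (Nat.sub_add_cancel (Nat.le_mul_self _)).symm
  rw [← sum_mul, ← mul_sum] at h2
  rw [h5] at h4
  generalize ∑ w ∈ U, (R.filter fun i => w ∈ l i ∧ ¬ cen w i).card = X at *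
  generalize ∑ w ∈ U, (R.filter fun i => w ∈ l i ∧ ¬ cen w i).offDiag.card = Y at *
  generalize ∑ w ∈ U, ((U ×ˢ U).filter fun q => G q.1 w q.2).card = Z at *
  simp only [Nat.cast_id] at h4
  generalize U.card = u at *
  by_cases h : X ≤ 2 * u
  · exact Or.inl (h1.trans h)
  · right
    have h6 : X ^ 2 ≤ 2 * u * Y := by nlinarith
    calc (R.card * r) ^ 2 * r ^ 2 ≤ 2 * u * Y * r ^ 2 :=
          Nat.mul_le_mul_right _ ((Nat.pow_le_pow_left h1 2).trans h6)
      _ = 2 * u * (Y * r ^ 2) := by ring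
      _ ≤ 2 * u * (2 * (u * u * c)) := Nat.mul_le_mul_left _ (h2.trans (by omega))
      _ = 4 * c * u ^ 3 := by ring

end Pool.Agent.MP_c9a892_co.H41
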