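import Pool.Agent.MP_c9a892_co.H41.Spec

/-!
Large families of lines contain subfamilies with small overlap, and the count of forbidden tuples.
-/

set_option autoImplicit false

namespace Pool.Agent.MP_c9a892_co.H41

open Finset
open scoped Classical

namespace SpreadA

theorem card_union_le {V I κ : Type} [DecidableEq V] (l : I → Finset V) (n : ℕ)
    (h : ∀ i, (l i).card = n) (s : Finset κ) (σ : κ → I) :
    (s.biUnion fun k => l (σ k)).card ≤ s.card * n :=
  card_biUnion_le_card_mul _ _ _ fun k _ => (h (σ k)).le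

theorem spread (hR : RichS) : SpreadS := by
  intro V I _ _ _ _ l n cen G c a r J J0 hl h2 ha h3 h4 F hF
  have key : ∀ k, k ≤ J0 → ∃ σ : Fin k → I, (∀ j, σ j ∈ F) ∧
      k * n ≤ (univ.biUnion fun j => l (σ j)).card + k * r := by
    intro k
    induction k with
    | zero => exact fun _ => ⟨Fin.elim0, fun j => j.elim0, by simp⟩
    | succ k ih =>
      intro hk
      obtain ⟨σ, h5, h6⟩ := ih (Nat.le_of_succ_le hk)
      set U := univ.biUnion fun j => l (σ j) with hU
      have hUc : U.card ≤ J0 * n := by
        refine (card_union_le l n hl.card univ σ).trans ?_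
        rw [card_univ, Fintype.card_fin]
        exact Nat.mul_le_mul_right _ (Nat.le_of_succ_le hk)
      have hRc : (univ.filter fun i => r < (l i ∩ U).card).card < J := by
        by_contra hc
        have hc' := Nat.mul_le_mul_right r (not_lt.1 hc)
        rcases hR V I l n cen G c a r U (univ.filter fun i => r < (l i ∩ U).card) hl h2 ha
          (fun i hi => (mem_filter.1 hi).2) with h | h
        · omega
        · have e1 : 4 * c * U.card ^ 3 ≤ 4 * c * (J0 * n) ^ 3 := by gcongr
          have e2 := Nat.mul_le_mul_right (r ^ 2) (Nat.pow_le_pow_left hc' 2)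
          omega
      obtain ⟨i, hi, hi'⟩ := exists_mem_notMem_of_card_lt_card (hRc.trans_le hF)
      have hi2 : (l i ∩ U).card ≤ r := by simpa using hi'
      refine ⟨Fin.cons i σ, fun j => ?_, ?_⟩
      · refine Fin.cases ?_ (fun j => ?_) j
        · simpa using hi
        · simpa using h5 j
      · have e : (univ.biUnion fun j : Fin (k + 1) => l ((Fin.cons i σ : Fin (k + 1) → I) j)) =
            l i ∪ U := by
          ext x
          simp [hU, Fin.exists_fin_succ]
        have e2 := card_union_add_card_inter (l i) U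
        rw [hl.card] at e2
        rw [e, Nat.succ_mul, Nat.succ_mul]
        omega
  exact key J0 le_rfl

theorem meet_le {V I : Type} [Fintype I] [DecidableEq V] [DecidableEq I] (l : I → Finset V)
    (Dm : ℕ) (hD : ∀ x, (univ.filter fun i => x ∈ l i).card ≤ Dm) (U : Finset V) :
    (univ.filter fun ρ => (l ρ ∩ U).Nonempty).card ≤ U.card * Dm := by
  refine le_trans (card_le_card (t := U.biUnion fun x => univ.filter fun i => x ∈ l i) ?_)
    (card_biUnion_le_card_mul _ _ _ fun x _ => hD x)
  intro ρ hρ
  obtain ⟨x, hx⟩ := (mem_filter.1 hρ).2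
  rw [mem_inter] at hx
  exact mem_biUnion.2 ⟨x, hx.2, mem_filter.2 ⟨mem_univ _, hx.1⟩⟩

theorem zc : ZcS := by
  intro V I _ _ _ _ l n Dm i0 J0 hl hn hD
  have hI : (univ : Finset I).card ≤ Fintype.card V * Dm := by
    refine le_trans (card_le_card fun i _ => mem_filter.2 ⟨mem_univ _, ?_⟩) (meet_le l Dm hD univ)
    rw [inter_univ, ← card_pos, hl.card]
    exact hn
  have hsub : Zs l i0 J0 ⊆ univ.biUnion fun i =>
      (powersetCard i0 (univ.filter fun ρ => (l ρ ∩ l i).Nonempty)).biUnion fun F =>
        Fintype.piFinset fun _ : Fin J0 => F.biUnion l := by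
    intro z hz
    obtain ⟨i, F, h1, h2, h3⟩ := (mem_filter.1 hz).2
    refine mem_biUnion.2 ⟨i, mem_univ _, mem_biUnion.2 ⟨F, mem_powersetCard.2
      ⟨fun ρ hρ => mem_filter.2 ⟨mem_univ _, h2 ρ hρ⟩, h1⟩, ?_⟩⟩
    exact Fintype.mem_piFinset.2 fun k => mem_biUnion.2 (h3 k)
  refine (card_le_card hsub).trans ((card_biUnion_le_card_mul _ _
    ((n * Dm) ^ i0 * (i0 * n) ^ J0) fun i _ => ?_).trans ?_)
  · refine (card_biUnion_le_card_mul _ _ ((i0 * n) ^ J0) fun F hF => ?_).trans ?_
    · rw [Fintype.card_piFinset, prod_const, card_univ, Fintype.card_fin]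
      refine Nat.pow_le_pow_left ?_ _
      rw [← (mem_powersetCard.1 hF).2]
      exact card_union_le l n hl.card F id
    · rw [card_powersetCard]
      refine Nat.mul_le_mul_right _ ((Nat.choose_le_pow _ _).trans (Nat.pow_le_pow_left ?_ _))
      rw [← hl.card i]
      exact meet_le l Dm hD _
  · rw [mul_assoc (Fintype.card V * Dm)]
    exact Nat.mul_le_mul_right _ hI

end SpreadA

theorem rowSpread : OfSpread ∧ ZcS := ⟨SpreadA.spread, SpreadA.zc⟩

end Pool.Agent.MP_c9a892_co.H41
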