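import Pool.Agent.MP_c9a892_co.H41.Spec

/-!
Few generic paths of length two join two points of the cube.
-/

set_option autoImplicit false

namespace Pool.Agent.MP_c9a892_co.H41

open Finset
open scoped Classical

namespace TwoA

theorem centre_eq {n : ℕ} {i k : Fin n} (hi : i = i.rev) (hk : k = k.rev) : i = k := by
  have h1 := congrArg Fin.val hi
  have h2 := congrArg Fin.val hk
  rw [Fin.val_rev] at h1 h2
  have := i.2
  have := k.2
  apply Fin.ext
  omega

theorem exists_centre {n : ℕ} (a : Fin n) : ∃ c : Fin n, ∀ i : Fin n, i = i.rev → i = c := by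
  by_cases h : ∃ c : Fin n, c = c.rev
  · obtain ⟨c, hc⟩ := h
    exact ⟨c, fun i hi => centre_eq hi hc⟩
  · exact ⟨a, fun i hi => absurd ⟨i, hi⟩ h⟩

/-- nine families of pairs of positions cover all the bad pairs -/
def fam {n : ℕ} (c a k : Fin n) (p : Fin 9 × Fin n) : Fin n × Fin n :=
  ![(c, p.2), (a, p.2), (a.rev, p.2), (p.2, k), (p.2, k.rev), (p.2, p.2), (p.2.rev, p.2),
    (p.2, a), (p.2, a.rev)] p.1

theorem fam_cover {n : ℕ} {c a k i j : Fin n} (hc : ∀ i : Fin n, i = i.rev → i = c)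
    (h : ∀ p, fam c a k p ≠ (i, j)) :
    i ≠ i.rev ∧ ¬ cl i a ∧ ¬ cl k j ∧ ¬ cl i j ∧ ¬ cl a j := by
  refine ⟨fun e => h (0, j) ?_, fun e => ?_, fun e => ?_, fun e => ?_, fun e => ?_⟩
  · rw [hc i e]; rfl
  · rcases e with rfl | rfl
    · exact h (1, j) rfl
    · exact h (2, j) rfl
  · rcases cl_symm e with rfl | rfl
    · exact h (3, i) rfl
    · exact h (4, i) rfl
  · rcases e with rfl | rfl
    · exact h (5, i) rfl
    · exact h (6, j) rfl
  · rcases cl_symm e with rfl | rfl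
    · exact h (7, i) rfl
    · exact h (8, i) rfl

end TwoA

theorem rowTwo : OfTwo := by
  intro hC hF n d hn
  obtain ⟨-, -, h3⟩ := hC n d hn
  refine ⟨?_, ?_, hF n d, ?_⟩
  · rintro τ x y - - ⟨i, rfl, hi⟩ ⟨k, rfl, hk⟩
    rw [TwoA.centre_eq hi hk]
  · rintro y w z ⟨τ, τ', i, i', k, k', hy, hw, hw', hz, ha, ha', -, -, h1, h2, -, -⟩
    refine ⟨fun e => h1 ?_, fun e => h2 ?_⟩
    · have : i = i' := pt_inj ha (by rw [hy, hw, e])
      rw [this]
      exact cl_refl _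
    · have : k = k' := pt_inj ha' (by rw [hw', hz, e])
      rw [this]
      exact cl_refl _
  · intro τ τ' w hne hw hw' hc _
    obtain ⟨a, ha⟩ := mem_ln.1 hw
    obtain ⟨k, hk⟩ := mem_ln.1 hw'
    have har : a ≠ a.rev := fun e => hc ⟨a, ha, e⟩
    have hact : ∃ j, (τ.1 j).isRight ≠ (τ'.1 j).isRight := by
      by_contra h
      exact hne (h3 τ τ' a k (ha.trans hk.symm) har fun j => by
        by_contra h'
        exact h ⟨j, h'⟩)
    obtain ⟨c, hcen⟩ := TwoA.exists_centre a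
    refine ⟨univ.image fun p : Fin 9 × Fin n =>
      (pt τ.1 (TwoA.fam c a k p).1, pt τ'.1 (TwoA.fam c a k p).2), ?_, ?_⟩
    · refine card_image_le.trans ?_
      simp
    · intro y hy z hz hS
      obtain ⟨i, rfl⟩ := mem_ln.1 hy
      obtain ⟨j, rfl⟩ := mem_ln.1 hz
      have h : ∀ p, TwoA.fam c a k p ≠ (i, j) := fun p e =>
        hS (mem_image.2 ⟨p, mem_univ _, by rw [e]⟩)
      obtain ⟨h1, h2, h4, h5, h6⟩ := TwoA.fam_cover hcen h
      exact ⟨τ.1, τ'.1, i, a, k, j, rfl, ha, hk, rfl, τ.2.act, τ'.2.act, hact, h1, h2, h4, h5, h6⟩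

end Pool.Agent.MP_c9a892_co.H41
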