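import Pool.Agent.MP_c9a892_co.H41.Spec

/-!
Row Win: the weak win criterion by a potential function.
-/

set_option autoImplicit false

namespace Pool.Agent.MP_c9a892_co.H41

open Finset
open scoped Classical

namespace WinA

variable {V I : Type} [DecidableEq V] (l : I → Finset V)

/-- the weight of a line -/
def w (A B : Finset V) (i : I) : ℕ := if Disjoint B (l i) then 2 ^ (A ∩ l i).card else 0

theorem term {n : ℕ} {A B : Finset V} {x : V} (y : V) {i : I} (hc : (l i).card = n) (hx : x ∉ A) :
    w l A B i + (if x ∈ l i then w l A B i else 0) ≤ w l (insert x A) (insert y B) i +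
      (if y ∈ l i then w l A B i else 0) + if x ∈ l i ∧ y ∈ l i then 2 ^ n else 0 := by
  by_cases hB : Disjoint B (l i)
  · have h1 : 2 ^ (A ∩ l i).card ≤ 2 ^ n :=
      Nat.pow_le_pow_right two_pos (hc ▸ card_le_card inter_subset_right)
    by_cases a : x ∈ l i <;> by_cases b : y ∈ l i
    · simp [w, hB, a, b, h1]
    · simp [w, hB, a, b, inter_comm, hx, pow_succ, mul_two]
    · simp [w, hB, a, b]
    · simp [w, hB, a, b, insert_inter_of_notMem]
  · simp [w, hB]

theorem alive {F : Finset I} {A B : Finset V} (h : 0 < ∑ i ∈ F, w l A B i) :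
    ∃ i ∈ F, Disjoint B (l i) := by
  obtain ⟨i, hi, h⟩ := exists_ne_zero_of_sum_ne_zero h.ne'
  exact ⟨i, hi, by_contra fun c => h (if_neg c)⟩

end WinA

open WinA in
theorem rowWin : WinS := by
  intro V I _ _ l n Δ F H hc hΔ hH h0
  have key : ∀ (k : ℕ) (A B : Finset V), (F.biUnion l \ (A ∪ B)).card ≤ k →
      k * (Δ * 2 ^ n) < ∑ i ∈ F, w l A B i → Win H (fun _ => False) A B true := by
    have fin : ∀ (A B : Finset V) (b : Bool), (∃ i ∈ F, Disjoint B (l i)) →
        (∀ y ∈ F.biUnion l, y ∉ B → y ∈ A) → Win H (fun _ => False) A B b := by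
      rintro A B b ⟨i, hi, hd⟩ h
      exact .done _ _ _ (hH _ ⟨i, hi, fun z hz =>
        h z (mem_biUnion.2 ⟨i, hi, hz⟩) (disjoint_right.1 hd hz)⟩)
    have emp : ∀ (A B : Finset V), ¬(F.biUnion l \ (A ∪ B)).Nonempty →
        ∀ y ∈ F.biUnion l, y ∉ B → y ∈ A := fun A B h y hy hB => by_contra fun hA =>
      h ⟨y, mem_sdiff.2 ⟨hy, fun c => (mem_union.1 c).elim hA hB⟩⟩
    intro k
    induction k with
    | zero =>
      intro A B hf h
      exact fin A B _ (alive l ((Nat.zero_le _).trans_lt h))
        (emp A B fun c => by have := c.card_pos; omega)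
    | succ k ih =>
      intro A B hf h
      have hal := alive l ((Nat.zero_le _).trans_lt h)
      by_cases hne : (F.biUnion l \ (A ∪ B)).Nonempty
      swap
      · exact fin A B _ hal (emp A B hne)
      obtain ⟨x, hx, hmax⟩ :=
        exists_max_image _ (fun y => ∑ i ∈ F, if y ∈ l i then w l A B i else 0) hne
      have hx' := (mem_sdiff.1 hx).2
      have hxA : x ∉ A := fun c => hx' (mem_union_left _ c)
      refine .first _ _ x hxA (fun c => hx' (mem_union_right _ c)) ?_
      by_cases hy : ∃ y, y ∉ insert x A ∧ y ∉ B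
      swap
      · exact fin _ B _ hal fun y _ hB => by_contra fun hA => hy ⟨y, hA, hB⟩
      refine .second _ _ hy (fun _ _ _ => id) fun y hyA hyB => ih _ _ ?_ ?_
      · have : F.biUnion l \ (insert x A ∪ insert y B) ⊆ (F.biUnion l \ (A ∪ B)).erase x := by
          intro z hz
          simp only [mem_sdiff, mem_union, mem_insert, mem_erase, not_or] at hz ⊢
          exact ⟨hz.2.1.1, hz.1, hz.2.1.2, hz.2.2.2⟩
        have h1 := card_le_card this
        rw [card_erase_of_mem hx] at h1
        omega
      · have h1 := sum_le_sum fun i (hi : i ∈ F) => term l (B := B) y (hc i hi) hxA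
        simp only [sum_add_distrib] at h1
        have h2 : (∑ i ∈ F, if y ∈ l i then w l A B i else 0) ≤
            ∑ i ∈ F, if x ∈ l i then w l A B i else 0 := by
          by_cases hU : y ∈ F.biUnion l
          · exact hmax y (mem_sdiff.2 ⟨hU, fun c => (mem_union.1 c).elim
              (fun c => hyA (mem_insert_of_mem c)) hyB⟩)
          · rw [sum_eq_zero fun i hi => if_neg fun c => hU (mem_biUnion.2 ⟨i, hi, c⟩)]
            exact Nat.zero_le _
        have h3 : (∑ i ∈ F, if x ∈ l i ∧ y ∈ l i then 2 ^ n else 0) ≤ Δ * 2 ^ n := by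
          rw [← sum_filter, sum_const, smul_eq_mul]
          exact Nat.mul_le_mul_right _ (hΔ x y fun e => hyA (e ▸ mem_insert_self _ _))
        rw [Nat.add_mul] at h
        omega
  exact key _ ∅ ∅ le_rfl (by simpa [w] using h0)

end Pool.Agent.MP_c9a892_co.H41
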