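import Pool.Agent.MP_c9a892_co.H41.Spec

/-! The third potential under a big move. -/

set_option autoImplicit false
set_option linter.unusedSectionVars false

namespace Pool.Agent.MP_c9a892_co.H41

open Finset
open scoped Classical

namespace Big3A

theorem push {K O : Type} [Fintype K] [DecidableEq K] [Fintype O] [DecidableEq O] (π : O → O)
    (a b : K → O → ℝ) (h : ∀ k o', ∑ o ∈ univ.filter (fun o => π o = o'), a k o = b k o')
    (F : (K → O) → ℝ) (hF : ∀ σ, F (fun k => π (σ k)) = F σ) :
    ∑ σ : K → O, (∏ k, a k (σ k)) * F σ = ∑ τ : K → O, (∏ k, b k (τ k)) * F τ := by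
  rw [← sum_fiberwise univ (fun (σ : K → O) (k : K) => π (σ k))]
  refine sum_congr rfl fun τ _ => ?_
  simp only [← h]
  rw [prod_univ_sum, sum_mul]
  refine sum_congr ?_ fun σ hσ => ?_
  · ext σ
    simp [funext_iff]
  · have : (fun k => π (σ k)) = τ := funext fun k => by
      simpa using Fintype.mem_piFinset.1 hσ k
    rw [← this, hF]

variable {V I : Type} [Fintype V] [DecidableEq V] [Fintype I] [DecidableEq I]

/-- forget the new lines -/
noncomputable def pr (N : Finset I) (o : Option I) : Option I :=
  o.bind fun i => if i ∈ N then none else some i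

theorem fib {p : Par V I} {s : St V I} (hs : Base p s) (x z : V) (o' : Option I) :
    ∑ o ∈ univ.filter (fun o => pr (new p s x) o = o'), mo p (mk p s x) z o = mo p s z o' := by
  have h0 : ∀ i ∈ new p s x, s.m z i = 0 := fun i hi => hs.mz i (mem_filter.1 hi).2.1 z
  have h1 : ∀ i, i ∉ new p s x → (mk p s x).m z i = s.m z i := fun i hi => by simp [mk, hi]
  rw [sum_filter, Fintype.sum_option]
  cases o' with
  | none =>
    have h2 : ∀ i, (if pr (new p s x) (some i) = none then mo p (mk p s x) z (some i) else 0) =
        (mk p s x).m z i - s.m z i := fun i => by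
      by_cases hi : i ∈ new p s x
      · simp [pr, hi, mo, h0 i hi]
      · simp [pr, hi, h1 i hi]
    simp only [h2, sum_sub_distrib]
    simp [pr, mo, St.mass]
  | some j =>
    have h2 : ∀ i, (if pr (new p s x) (some i) = some j then mo p (mk p s x) z (some i) else 0) =
        if i = j then s.m z j else 0 := fun i => by
      by_cases hi : i ∈ new p s x
      · by_cases e : i = j
        · subst e; simp [pr, hi, h0 i hi]
        · simp [pr, hi, e]
      · by_cases e : i = j
        · subst e; simp [pr, hi, mo, h1 i hi]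
        · simp [pr, hi, e]
    simp only [h2]
    simp [pr, mo]

/-- the factor of a term that does not depend on the points -/
noncomputable def fac (p : Par V I) (s : St V I) (c : I → Finset V) (σ : Fin p.J0 → Option I) :
    ℝ :=
  if Disjoint s.B (univ.biUnion fun k => (σ k).elim ∅ fun i => if i ∈ s.done then ∅ else p.l i)
  then p.lam ^ (univ.biUnion fun k => (σ k).elim ∅ c).card else 0

/-- the normalising factor -/
noncomputable def be (p : Par V I) (z : Fin p.J0 → V) : ℝ :=
  if z ∈ p.Z then (p.Z.card * p.T ^ p.J0)⁻¹ else 0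

theorem wt_eq (p : Par V I) (s : St V I) (t : T3 p) : wt p s (.inr t) =
    be p t.1 * ((∏ k, mo p s (t.1 k) (t.2 k)) * fac p s s.cnt t.2) := by
  simp only [wt, raw, kill, fac, be]
  split_ifs <;> simp [mul_assoc]

theorem fac_pr {p : Par V I} {s : St V I} (hs : Base p s) (x : V) (σ : Fin p.J0 → Option I) :
    fac p s (mk p s x).cnt (fun k => pr (new p s x) (σ k)) = fac p s (mk p s x).cnt σ := by
  have h1 : ∀ o, (pr (new p s x) o).elim ∅ (mk p s x).cnt = o.elim ∅ (mk p s x).cnt := by
    rintro (_ | i)
    · rfl
    · by_cases hi : i ∈ new p s x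
      · have := (mem_filter.1 hi).2.1
        simp [pr, hi, mk, this, hs.cz i this]
      · simp [pr, hi]
  have h2 : ∀ o, Disjoint s.B ((pr (new p s x) o).elim ∅
      fun i => if i ∈ s.done then ∅ else p.l i) ↔
      Disjoint s.B (o.elim ∅ fun i => if i ∈ s.done then ∅ else p.l i) := by
    rintro (_ | i)
    · rfl
    · by_cases hi : i ∈ new p s x
      · have := (mem_filter.1 hi).2.2
        by_cases hd : i ∈ s.done <;> simp [pr, hi, hd, this]
      · simp [pr, hi]
  simp only [fac, h1, disjoint_biUnion_right, h2]

theorem fac_le {p : Par V I} {s : St V I} (hp : Ok p) (x : V) (t : T3 p) :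
    fac p s (mk p s x).cnt t.2 ≤ fac p s s.cnt t.2 +
      (p.lam - 1) * if x ∈ kill p s (.inr t) then fac p s s.cnt t.2 else 0 := by
  have h0 : 0 ≤ p.lam := zero_le_one.trans hp.one
  unfold fac
  by_cases hd : Disjoint s.B
    (univ.biUnion fun k => (t.2 k).elim ∅ fun i => if i ∈ s.done then ∅ else p.l i)
  · simp only [if_pos hd]
    by_cases hx : x ∈ kill p s (.inr t)
    · rw [if_pos hx]
      have h1 : (univ.biUnion fun k => (t.2 k).elim ∅ (mk p s x).cnt) ⊆
          insert x (univ.biUnion fun k => (t.2 k).elim ∅ s.cnt) := fun y hy => by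
        obtain ⟨k, -, hk⟩ := mem_biUnion.1 hy
        rw [mem_insert, mem_biUnion]
        cases e : t.2 k with
        | none => simp [e] at hk
        | some i =>
          simp only [e, mk, Option.elim_some] at hk
          split_ifs at hk
          · exact (mem_insert.1 hk).imp id fun h => ⟨k, mem_univ _, by simpa [e] using h⟩
          · exact Or.inr ⟨k, mem_univ _, by simpa [e] using hk⟩
      have h2 := pow_le_pow_right₀ hp.one ((card_le_card h1).trans (card_insert_le _ _))
      rw [pow_succ] at h2
      linarith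
    · rw [if_neg hx, mul_zero, add_zero]
      refine le_of_eq (congrArg (fun S : Finset V => p.lam ^ S.card)
        (biUnion_congr rfl fun k _ => ?_))
      cases e : t.2 k with
      | none => rfl
      | some i =>
        simp only [mk, Option.elim_some]
        refine if_neg fun h => hx (mem_biUnion.2 ⟨k, mem_univ _, ?_⟩)
        simp [e, h.2.1, h.2.2]
  · simp [hd]

end Big3A

open Big3A in
theorem rowBig3 : Big3S := by
  intro V I _ _ _ _ p s x hp hs _ _
  have h0 : 0 ≤ p.lam := zero_le_one.trans hp.one
  have hT := hp.Tpos.le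
  have key : ∑ t : T3 p, wt p (mk p s x) (.inr t) =
      ∑ t : T3 p, be p t.1 *
        ((∏ k, mo p s (t.1 k) (t.2 k)) * fac p s (mk p s x).cnt t.2) := by
    simp only [wt_eq, Fintype.sum_prod_type]
    refine sum_congr rfl fun z _ => ?_
    rw [← mul_sum, ← mul_sum]
    exact congrArg _ (push (pr (new p s x)) (fun k => mo p (mk p s x) (z k))
      (fun k => mo p s (z k)) (fun k o' => fib hs x (z k) o') _ (fac_pr hs x))
  have hc : ∀ t : T3 p, 0 ≤ be p t.1 := by
    intro t
    unfold be
    split_ifs
    · positivity
    · exact le_rfl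
  have hm : ∀ t : T3 p, 0 ≤ ∏ k, mo p s (t.1 k) (t.2 k) := fun t =>
    prod_nonneg fun k _ => mo_nonneg hs _ _
  rw [key]
  refine ⟨sum_nonneg fun t _ => mul_nonneg (hc t) (mul_nonneg (hm t) ?_), ?_⟩
  · unfold fac
    split_ifs
    · positivity
    · exact le_rfl
  · rw [mul_sum, ← sum_add_distrib]
    refine sum_le_sum fun t _ => ?_
    refine (mul_le_mul_of_nonneg_left (mul_le_mul_of_nonneg_left (fac_le hp x t) (hm t))
      (hc t)).trans (le_of_eq ?_)
    rw [wt_eq]
    split_ifs <;> ring

end Pool.Agent.MP_c9a892_co.H41
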