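import Pool.Agent.MP_c9a892_co.H41.Spec

set_option autoImplicit false

namespace Pool.Agent.MP_c9a892_co.H41

open Finset
open scoped Classical

namespace MnumA

theorem ev (e : ℝ) (he : 0 < e) (K : ℝ) : ∃ n0 : ℕ, ∀ n : ℕ, n0 ≤ n →
    2 ≤ n ∧ 32 * Real.log n ≤ e * Real.log 2 * n ∧ 6 * K ≤ e * Real.log n := by
  have l2 : 0 < Real.log 2 := Real.log_pos (by norm_num)
  have h1 : ∀ᶠ x : ℝ in Filter.atTop, ‖Real.log x‖ ≤ (e * Real.log 2 / 32) * ‖id x‖ :=
    Real.isLittleO_log_id_atTop.bound (by positivity)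
  have h2 : ∀ᶠ x : ℝ in Filter.atTop, 6 * K / e ≤ Real.log x :=
    Real.tendsto_log_atTop.eventually_ge_atTop _
  have h3 := (tendsto_natCast_atTop_atTop (R := ℝ)).eventually (h1.and h2)
  obtain ⟨n1, hn1⟩ := Filter.eventually_atTop.1 h3
  refine ⟨max n1 2, fun n hn => ?_⟩
  have ha := hn1 n (le_of_max_le_left hn)
  have hb : 2 ≤ n := le_of_max_le_right hn
  refine ⟨hb, ?_, ?_⟩
  · have h4 := ha.1
    simp only [id, Real.norm_eq_abs, Nat.abs_cast] at h4
    have h5 := le_abs_self (Real.log n)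
    linarith
  · have h4 := ha.2
    rw [div_le_iff₀ he] at h4
    linarith

theorem choose_ge (s m : ℕ) :
    (((s : ℝ) + 1) / m) ^ m ≤ ((s + m).choose m : ℝ) := by
  have h1 : (((s + m + 1 - m : ℕ) : ℝ) ^ m) / (m.factorial : ℝ) ≤ ((s + m).choose m : ℝ) :=
    Nat.pow_le_choose m (s + m)
  have h2 : s + m + 1 - m = s + 1 := by omega
  rw [h2] at h1
  push_cast at h1
  have h3 : (m.factorial : ℝ) ≤ (m : ℝ) ^ m := by exact_mod_cast Nat.factorial_le_pow m
  have h4 : (0 : ℝ) < m.factorial := by exact_mod_cast m.factorial_pos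
  refine le_trans ?_ h1
  rw [div_pow]
  exact div_le_div_of_nonneg_left (by positivity) h4 h3

end MnumA

theorem rowMnum : MnumS := by
  intro ε hε
  set e : ℝ := min ε 1 with hedef
  have he : 0 < e := lt_min hε one_pos
  have he1 : e ≤ 1 := min_le_right _ _
  have heε : e ≤ ε := min_le_left _ _
  have l2 : 0 < Real.log 2 := Real.log_pos (by norm_num)
  set K : ℝ := Real.log (16 / e) with hK
  have hK0 : 0 ≤ K := Real.log_nonneg (by rw [le_div_iff₀ he]; linarith)
  obtain ⟨n0, hn0⟩ := MnumA.ev e he K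
  refine ⟨n0, fun n hn d hd => ?_⟩
  obtain ⟨h2, hA, hB⟩ := hn0 n hn
  have hn2 : (2 : ℝ) ≤ n := by exact_mod_cast h2
  have hnpos : (0 : ℝ) < n := by linarith
  set L : ℝ := Real.log n with hL
  have hLpos : 0 < L := Real.log_pos (by linarith)
  -- u = n log 2 / log n
  set u : ℝ := n * Real.log 2 / L with hu
  have huL : u * L = n * Real.log 2 := by rw [hu]; field_simp
  have hu32 : 32 ≤ e * u := by
    have : 32 * L ≤ e * u * L := by rw [mul_assoc, huL]; linarith
    exact le_of_mul_le_mul_right this hLpos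
  have hupos : 0 < u := by positivity
  have hu32' : 32 ≤ u := by nlinarith
  set m : ℕ := ⌈(1 + e / 2) * u⌉₊ with hm
  set s : ℕ := ⌊e / 8 * (n * u)⌋₊ with hs
  have hm1 : (1 + e / 2) * u ≤ m := Nat.le_ceil _
  have hm2 : (m : ℝ) < (1 + e / 2) * u + 1 := Nat.ceil_lt_add_one (by positivity)
  have hs1 : (s : ℝ) ≤ e / 8 * (n * u) := Nat.floor_le (by positivity)
  have hs2 : e / 8 * (n * u) < s + 1 := Nat.lt_floor_add_one _
  have hs4 : 4 * n ≤ s := by
    apply Nat.le_floor
    push_cast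
    nlinarith
  have hmpos : 0 < m := by
    have : (0 : ℝ) < m := lt_of_lt_of_le (by positivity) hm1
    exact_mod_cast this
  have hmR : (0 : ℝ) < m := by exact_mod_cast hmpos
  refine ⟨s, m, by omega, ?_, ?_, ?_⟩
  · have hd' : (1 + e) * (n * u / 2) ≤ d := by
      have h3 : Real.log 2 / 2 * n ^ 2 / L = n * u / 2 := by rw [hu]; field_simp
      rw [h3] at hd
      refine le_trans ?_ hd
      exact mul_le_mul_of_nonneg_right (by linarith) (by positivity)
    have h4 : ((n / 2 : ℕ) : ℝ) ≤ n / 2 := Nat.cast_div_le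
    have h5 : ((n / 2 : ℕ) : ℝ) * m ≤ n / 2 * ((1 + e / 2) * u + 1) :=
      mul_le_mul h4 hm2.le hmR.le (by positivity)
    have h6 : (n : ℝ) * 32 ≤ n * (e * u) := mul_le_mul_of_nonneg_left hu32 hnpos.le
    have h7 : ((s + n / 2 * m : ℕ) : ℝ) ≤ d := by
      push_cast [Nat.cast_add, Nat.cast_mul]
      nlinarith
    exact_mod_cast h7
  · have h3 := MnumA.choose_ge s m
    have hm3 : (m : ℝ) ≤ 2 * u := by nlinarith
    have h4 : e / 16 * n ≤ ((s : ℝ) + 1) / m := by
      rw [le_div_iff₀ hmR]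
      have : e / 16 * n * m ≤ e / 16 * n * (2 * u) :=
        mul_le_mul_of_nonneg_left hm3 (by positivity)
      nlinarith
    have h5 : (e / 16 * n) ^ m ≤ (((s : ℝ) + 1) / m) ^ m :=
      pow_le_pow_left₀ (by positivity) h4 m
    have h6 : Real.log (e / 16 * n) = L - K := by
      have h0 : e / 16 = (16 / e)⁻¹ := by field_simp
      rw [Real.log_mul (by positivity) hnpos.ne', h0, Real.log_inv, ← hK, ← hL]
      ring
    have hLK : 0 ≤ L - K := by nlinarith
    have h7 : Real.log ((n : ℝ) ^ 3 * 2 ^ n) < Real.log ((e / 16 * n) ^ m) := by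
      rw [Real.log_pow, h6, Real.log_mul (by positivity) (by positivity), Real.log_pow,
        Real.log_pow]
      have h8 : (1 + e / 2) * u * (L - K) ≤ m * (L - K) := mul_le_mul_of_nonneg_right hm1 hLK
      have h9 : u * (6 * K) ≤ u * (e * L) := mul_le_mul_of_nonneg_left hB hupos.le
      have h10 : 32 * L ≤ e * u * L := mul_le_mul_of_nonneg_right hu32 hLpos.le
      have h11 : e * (u * K) ≤ 1 * (u * K) := mul_le_mul_of_nonneg_right he1 (by positivity)
      push_cast
      rw [← hL, ← huL]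
      nlinarith
    have h12 : (n : ℝ) ^ 3 * 2 ^ n < (e / 16 * n) ^ m :=
      (Real.log_lt_log_iff (by positivity) (by positivity)).1 h7
    have h13 : (n : ℝ) ^ 3 * 2 ^ n < ((s + m).choose m : ℝ) := lt_of_lt_of_le h12 (h5.trans h3)
    exact_mod_cast h13
  · have h3 : n < 2 ^ n := Nat.lt_two_pow_self
    have h4 : n ^ 3 < (2 ^ n) ^ 3 := Nat.pow_lt_pow_left h3 (by norm_num)
    calc n ^ 3 * 2 ^ n < (2 ^ n) ^ 3 * 2 ^ n := Nat.mul_lt_mul_of_pos_right h4 (by positivity)
      _ = 2 ^ (4 * n) := by ring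
      _ ≤ 2 ^ s := Nat.pow_le_pow_right (by norm_num) hs4

end Pool.Agent.MP_c9a892_co.H41
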